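import Pool.Agent.Q100.CQ.Conv

set_option autoImplicit false
set_option linter.unusedSectionVars false

/-!
# Clifford theory for an injective homomorphism `ι : K → M` with normal range
-/

open scoped Classical BigOperators
open Pool.Agent.Helper884.IC Pool.Agent.Y63.AWC Pool.Agent.Y63.KR

noncomputable section

namespace Pool.Agent.Q100.CQ

variable {K M : Type} [Group K] [Group M] [Fintype K]

/-- extension by zero -/
def push (ι : K →* M) (f : K → ℂ) (z : M) : ℂ := ∑ x : K, if ι x = z then f x else 0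

lemma push_apply {ι : K →* M} (hι : Function.Injective ι) (f : K → ℂ) (x : K) :
    push ι f (ι x) = f x := by
  unfold push
  rw [Finset.sum_eq_single x]
  · rw [if_pos rfl]
  · intro y _ hy
    rw [if_neg (fun h => hy (hι h))]
  · intro h
    exact absurd (Finset.mem_univ _) h

lemma push_zero {ι : K →* M} (f : K → ℂ) {z : M} (hz : z ∉ ι.range) : push ι f z = 0 := by
  unfold push
  refine Finset.sum_eq_zero fun x _ => ?_
  rw [if_neg]
  rintro rfl
  exact hz ⟨x, rfl⟩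

variable [Fintype M]

lemma sum_push (ι : K →* M) (f : K → ℂ) (h : M → ℂ) :
    ∑ z : M, push ι f z * h z = ∑ x : K, f x * h (ι x) := by
  unfold push
  simp only [Finset.sum_mul]
  rw [Finset.sum_comm]
  refine Finset.sum_congr rfl fun x _ => ?_
  rw [Finset.sum_eq_single (ι x)]
  · rw [if_pos rfl]
  · intro z _ hz
    rw [if_neg (fun h => hz h.symm), zero_mul]
  · intro h
    exact absurd (Finset.mem_univ _) h

/-- the data: `ι` is injective and `α y` is the conjugation by `y` on `K` -/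
structure CJ {K M : Type} [Group K] [Group M] (ι : K →* M) (α : M → K ≃* K) : Prop where
  inj : Function.Injective ι
  cj : ∀ y x, ι (α y x) = y * ι x * y⁻¹

variable {ι : K →* M} {α : M → K ≃* K}

/-- the sum of the `θ(1) θ`, `θ ∈ Θ` -/
def FT (Θ : Finset (K → ℂ)) (x : K) : ℂ := ∑ θ ∈ Θ, θ 1 * θ x

/-- `Θ` is stable under conjugation -/
def Stab (α : M → K ≃* K) (Θ : Finset (K → ℂ)) : Prop :=
  ∀ y : M, ∀ θ ∈ Θ, (fun x => θ (α y x)) ∈ Θ

lemma FT_conj {Θ : Finset (K → ℂ)} (hs : Stab α Θ) (y : M) (x : K) :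
    FT Θ (α y x) = FT Θ x := by
  unfold FT
  have hinj : Set.InjOn (fun (θ : K → ℂ) => fun x => θ (α y x)) (Θ : Set (K → ℂ)) := by
    intro θ _ θ' _ h
    funext x
    have := congrFun h ((α y).symm x)
    simpa using this
  have himg : Θ.image (fun (θ : K → ℂ) => fun x => θ (α y x)) = Θ := by
    apply Finset.eq_of_subset_of_card_le
    · intro θ hθ
      obtain ⟨θ', h', rfl⟩ := Finset.mem_image.mp hθ
      exact hs y θ' h'
    · rw [Finset.card_image_of_injOn hinj]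
  conv_rhs => rw [← himg]
  rw [Finset.sum_image hinj]
  refine Finset.sum_congr rfl fun θ _ => ?_
  simp only [map_one]

lemma FT_class {Θ : Finset (K → ℂ)} (hΘ : Θ ⊆ Irr K) : IsClass (FT Θ) := by
  intro x y
  unfold FT
  refine Finset.sum_congr rfl fun θ hθ => ?_
  rw [(mem_Irr.mp (hΘ hθ)).isClass x y]

lemma push_class (h : CJ ι α) {Θ : Finset (K → ℂ)} (hs : Stab α Θ) :
    IsClass (push ι (FT Θ)) := by
  intro z y
  unfold push
  refine Fintype.sum_equiv (α y).symm.toEquiv _ _ fun x => ?_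
  have e1 : x = α y ((α y).symm x) := by simp
  have h1 : (ι x = y * z * y⁻¹) ↔ ι ((α y).symm x) = z := by
    conv_lhs => rw [e1]
    rw [h.cj]
    constructor
    · intro h2
      calc ι ((α y).symm x) = y⁻¹ * (y * ι ((α y).symm x) * y⁻¹) * y := by group
        _ = z := by rw [h2]; group
    · intro h2
      rw [h2]
  change (if ι x = y * z * y⁻¹ then FT Θ x else 0) =
    if ι ((α y).symm x) = z then FT Θ ((α y).symm x) else 0
  by_cases h2 : ι ((α y).symm x) = z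
  · rw [if_pos (h1.mpr h2), if_pos h2]
    conv_lhs => rw [e1]
    exact FT_conj hs y _
  · rw [if_neg (fun h3 => h2 (h1.mp h3)), if_neg h2]

/-- `FT` is a multiple of an idempotent -/
lemma FT_conv {Θ : Finset (K → ℂ)} (hΘ : Θ ⊆ Irr K) (z : K) :
    ∑ x : K, FT Θ x * FT Θ (x⁻¹ * z) = (Nat.card K : ℂ) * FT Θ z := by
  unfold FT
  have h1 : ∀ x : K, (∑ θ ∈ Θ, θ 1 * θ x) * (∑ θ ∈ Θ, θ 1 * θ (x⁻¹ * z)) =
      ∑ θ' ∈ Θ, ∑ θ ∈ Θ, θ' 1 * ((θ' x * θ (x⁻¹ * z)) * θ 1) := by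
    intro x
    rw [Finset.sum_mul_sum]
    refine Finset.sum_congr rfl fun θ' _ => Finset.sum_congr rfl fun θ _ => ?_
    ring
  rw [Finset.sum_congr rfl fun x _ => h1 x, Finset.sum_comm, Finset.mul_sum]
  refine Finset.sum_congr rfl fun θ' h' => ?_
  rw [Finset.sum_comm]
  have h2 : ∀ θ ∈ Θ, ∑ x : K, θ' 1 * ((θ' x * θ (x⁻¹ * z)) * θ 1) =
      if θ' = θ then θ' 1 * ((Nat.card K : ℂ) * θ z) else 0 := by
    intro θ hθ
    rw [← Finset.mul_sum, ← Finset.sum_mul, conv_irr (mem_Irr.mp (hΘ hθ)) (mem_Irr.mp (hΘ h'))]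
    split_ifs with h3
    · rfl
    · rw [mul_zero]
  rw [Finset.sum_congr rfl h2, Finset.sum_ite_eq, if_pos h']
  ring

lemma push_conv (h : CJ ι α) {Θ : Finset (K → ℂ)} (hΘ : Θ ⊆ Irr K) (z : M) :
    ∑ k : M, push ι (FT Θ) k * push ι (FT Θ) (k⁻¹ * z) = (Nat.card K : ℂ) * push ι (FT Θ) z := by
  rw [sum_push ι (FT Θ) (fun k => push ι (FT Θ) (k⁻¹ * z))]
  by_cases hz : z ∈ ι.range
  · obtain ⟨w, rfl⟩ := hz
    rw [push_apply h.inj, ← FT_conv hΘ w]
    refine Finset.sum_congr rfl fun x _ => ?_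
    rw [← map_inv, ← map_mul, push_apply h.inj]
  · rw [push_zero _ hz, mul_zero]
    refine Finset.sum_eq_zero fun x _ => ?_
    rw [push_zero, mul_zero]
    intro h2
    apply hz
    have h3 := ι.range.mul_mem (⟨x, rfl⟩ : ι x ∈ ι.range) h2
    rwa [mul_inv_cancel_left] at h3

/-- the multiplicity of `θ` in the restriction of `χ` -/
def mlt (ι : K →* M) (θ : K → ℂ) (χ : M → ℂ) : ℂ := B θ (fun x => χ (ι x))

/-- `∑_{θ ∈ Θ} θ(1) m(θ, χ)` -/
def SS' (ι : K →* M) (Θ : Finset (K → ℂ)) (χ : M → ℂ) : ℂ := ∑ θ ∈ Θ, θ 1 * mlt ι θ χ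

lemma SS_eq (Θ : Finset (K → ℂ)) (χ : M → ℂ) :
    ∑ g : M, push ι (FT Θ) g * χ g⁻¹ = (Nat.card K : ℂ) * SS' ι Θ χ := by
  rw [sum_push ι (FT Θ) (fun g => χ g⁻¹)]
  unfold SS' mlt B FT
  have hK := cardG_ne (G := K)
  simp only [Finset.sum_mul]
  rw [Finset.sum_comm, Finset.mul_sum]
  refine Finset.sum_congr rfl fun θ _ => ?_
  have e1 : ∀ x : K, χ (ι x)⁻¹ = χ (ι x⁻¹) := fun x => by rw [map_inv]
  rw [Finset.sum_congr rfl fun x _ => by rw [e1 x, mul_assoc], ← Finset.mul_sum]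
  field_simp

/-- **Dichotomy.** -/
theorem dich (h : CJ ι α) {Θ : Finset (K → ℂ)} (hΘ : Θ ⊆ Irr K) (hs : Stab α Θ) {χ : M → ℂ}
    (hχ : IsIrrChar χ) : SS' ι Θ χ = 0 ∨ SS' ι Θ χ = χ 1 := by
  have h1 := omega_mul (f := push ι (FT Θ)) hχ (push_class h hs)
  have h2 : ∀ g : M, (∑ k : M, push ι (FT Θ) k * push ι (FT Θ) (k⁻¹ * g)) * χ g⁻¹ =
      (Nat.card K : ℂ) * (push ι (FT Θ) g * χ g⁻¹) := by
    intro g
    rw [push_conv h hΘ]
    ring
  rw [Finset.sum_congr rfl fun g _ => h2 g, ← Finset.mul_sum, SS_eq] at h1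
  have hK := cardG_ne (G := K)
  by_cases h0 : SS' ι Θ χ = 0
  · exact Or.inl h0
  · right
    have h3 : (Nat.card K : ℂ) * (Nat.card K : ℂ) * SS' ι Θ χ * (SS' ι Θ χ - χ 1) = 0 := by
      linear_combination h1
    rcases mul_eq_zero.mp h3 with h4 | h4
    · rcases mul_eq_zero.mp h4 with h5 | h5
      · exact absurd h5 (mul_ne_zero hK hK)
      · exact absurd h5 h0
    · exact sub_eq_zero.mp h4

/-- the restriction is a class function -/
lemma res_class (h : CJ ι α) {χ : M → ℂ} (hχ : IsClass χ) : IsClass (fun x => χ (ι x)) := by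
  intro x y
  simp only [map_mul, map_inv]
  exact hχ _ _

lemma mlt_conj (h : CJ ι α) (θ : K → ℂ) {χ : M → ℂ} (hχ : IsClass χ) (y : M) :
    mlt ι (fun x => θ (α y x)) χ = mlt ι θ χ := by
  unfold mlt B
  congr 1
  refine Fintype.sum_equiv (α y).toEquiv _ _ fun x => ?_
  change θ (α y x) * χ (ι x⁻¹) = θ (α y x) * χ (ι (α y x)⁻¹)
  congr 1
  rw [← map_inv, h.cj, hχ]

lemma SS_all (χ : M → ℂ) (hχ : IsClass (fun x => χ (ι x))) : SS' ι (Irr K) χ = χ 1 := by
  have h1 := congrFun (expand (fun x => χ (ι x)) hχ) 1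
  simp only [map_one] at h1
  rw [h1]
  unfold SS' mlt
  rw [Finset.sum_apply]
  refine Finset.sum_congr rfl fun θ _ => ?_
  rw [Pi.smul_apply, smul_eq_mul, B_comm]
  ring

end Pool.Agent.Q100.CQ
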