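import Pool.Agent.Q100.IV.Fin
import Pool.Agent.Y62.Transfer

set_option autoImplicit false
set_option linter.unusedSectionVars false

/-!
# Convolution formulas for irreducible characters
-/

open scoped Classical BigOperators
open Pool.Agent.Helper884.IC Pool.Agent.Y63.AWC Pool.Agent.Y63.KR

noncomputable section

namespace Pool.Agent.Q100.CQ

variable {H : Type} [Group H] [Fintype H]

/-- convolution with a class function -/
lemma conv_class {χ : H → ℂ} (hχ : IsIrrChar χ) {f : H → ℂ} (hf : IsClass f) (g : H) :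
    (∑ x : H, f x * χ (x⁻¹ * g)) * χ 1 = (∑ x : H, f x * χ x⁻¹) * χ g := by
  obtain ⟨V, _, _, _, ρ, hr, rfl⟩ := hχ
  obtain ⟨c, hc⟩ := top_scalar ρ hr f hf
  have key : ∀ g : H, ∑ x : H, f x * ρ.character (x⁻¹ * g) = c * ρ.character g := by
    intro g
    have h2 := congrArg (fun T : V →ₗ[ℂ] V => LinearMap.trace ℂ V (T * ρ g)) hc
    unfold Helper884.IC.Top at h2
    simp only [Finset.sum_mul, smul_mul_assoc, map_sum, map_smul, smul_eq_mul] at h2
    have h3 : (LinearMap.id : V →ₗ[ℂ] V) * ρ g = ρ g := one_mul _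
    rw [h3] at h2
    refine Eq.trans (Finset.sum_congr rfl fun x _ => ?_) h2
    rw [← map_mul]
    rfl
  have h1 := key 1
  simp only [mul_one] at h1
  rw [key g, h1]
  ring

/-- orthogonality, with a convolution -/
lemma conv_irr {θ θ' : H → ℂ} (h : IsIrrChar θ) (h' : IsIrrChar θ') (z : H) :
    (∑ x : H, θ' x * θ (x⁻¹ * z)) * θ 1 = if θ' = θ then (Nat.card H : ℂ) * θ z else 0 := by
  rw [conv_class h h'.isClass]
  have h1 := B_irr h' h
  unfold B at h1
  have h2 := cardG_ne (G := H)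
  by_cases h3 : θ' = θ
  · rw [if_pos h3] at h1 ⊢
    have : ∑ x : H, θ' x * θ x⁻¹ = (Nat.card H : ℂ) := by
      field_simp at h1
      exact h1
    rw [this]
  · rw [if_neg h3] at h1 ⊢
    rcases mul_eq_zero.mp h1 with h4 | h4
    · exact absurd h4 (inv_ne_zero h2)
    · rw [h4, zero_mul]

/-- multiplicativity of the central character -/
lemma omega_mul {χ : H → ℂ} (hχ : IsIrrChar χ) {f h : H → ℂ} (hh : IsClass h) :
    (∑ g : H, f g * χ g⁻¹) * (∑ g : H, h g * χ g⁻¹) =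
      χ 1 * ∑ g : H, (∑ k : H, f k * h (k⁻¹ * g)) * χ g⁻¹ := by
  have h1 : ∑ g : H, (∑ k : H, f k * h (k⁻¹ * g)) * χ g⁻¹ =
      ∑ k : H, f k * ∑ m : H, h m * χ (m⁻¹ * k⁻¹) := by
    simp only [Finset.sum_mul, Finset.mul_sum]
    rw [Finset.sum_comm]
    refine Finset.sum_congr rfl fun k _ => ?_
    refine Fintype.sum_equiv (Equiv.mulLeft k⁻¹) _ _ fun g => ?_
    rw [Equiv.coe_mulLeft]
    have : (k⁻¹ * g)⁻¹ * k⁻¹ = g⁻¹ := by group
    rw [this]
    ring
  rw [h1, Finset.sum_mul, Finset.mul_sum]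
  refine Finset.sum_congr rfl fun k _ => ?_
  have h2 := conv_class hχ hh k⁻¹
  calc f k * χ k⁻¹ * ∑ g : H, h g * χ g⁻¹ = f k * ((∑ g : H, h g * χ g⁻¹) * χ k⁻¹) := by ring
    _ = f k * ((∑ x : H, h x * χ (x⁻¹ * k⁻¹)) * χ 1) := by rw [h2]
    _ = _ := by ring

/-- the product of two class sums -/
lemma mul_formula {θ : H → ℂ} (hθ : IsIrrChar θ) (x z : H) :
    (∑ g : H, θ (x * (g * z * g⁻¹))) * θ 1 = (Nat.card H : ℂ) * (θ x * θ z) := by
  let f : H → ℂ := fun w => ∑ g : H, if g * z⁻¹ * g⁻¹ = w then 1 else 0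
  have hf : IsClass f := by
    intro w y
    simp only [f]
    refine Fintype.sum_equiv (Equiv.mulLeft y⁻¹) _ _ fun b => ?_
    congr 1
    rw [Equiv.coe_mulLeft]
    apply propext
    constructor
    · intro h
      calc y⁻¹ * b * z⁻¹ * (y⁻¹ * b)⁻¹ = y⁻¹ * (b * z⁻¹ * b⁻¹) * y := by group
        _ = w := by rw [h]; group
    · intro h
      calc b * z⁻¹ * b⁻¹ = y * (y⁻¹ * b * z⁻¹ * (y⁻¹ * b)⁻¹) * y⁻¹ := by group
        _ = y * w * y⁻¹ := by rw [h]
  have key : ∀ t : H, ∑ w : H, f w * θ (w⁻¹ * t) = ∑ g : H, θ (g * z * g⁻¹ * t) := by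
    intro t
    simp only [f, Finset.sum_mul]
    rw [Finset.sum_comm]
    refine Finset.sum_congr rfl fun g _ => ?_
    rw [Finset.sum_eq_single (g * z⁻¹ * g⁻¹)]
    · rw [if_pos rfl, one_mul]
      congr 1
      group
    · intro w _ hw
      rw [if_neg (fun h => hw h.symm), zero_mul]
    · intro h
      exact absurd (Finset.mem_univ _) h
  have h1 := conv_class hθ hf x
  have h2 := key 1
  simp only [mul_one] at h2
  rw [key x, h2] at h1
  have h3 : ∑ g : H, θ (g * z * g⁻¹) = (Nat.card H : ℂ) * θ z := by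
    rw [Finset.sum_congr rfl fun g _ => hθ.isClass z g, Finset.sum_const, Finset.card_univ,
      nsmul_eq_mul, Nat.card_eq_fintype_card]
  rw [h3] at h1
  have h4 : ∑ g : H, θ (x * (g * z * g⁻¹)) = ∑ g : H, θ (g * z * g⁻¹ * x) := by
    refine Finset.sum_congr rfl fun g _ => ?_
    have := hθ.isClass (g * z * g⁻¹ * x) x
    rw [← this]
    congr 1
    group
  rw [h4, h1]
  ring

end Pool.Agent.Q100.CQ
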