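import Pool.Agent.Q100.CQ.Cliff

set_option autoImplicit false
set_option linter.unusedSectionVars false

/-!
# Degrees of the constituents, abelian quotients of order prime to `p`
-/

open scoped Classical BigOperators
open Pool.Agent.Helper884.IC Pool.Agent.Y63.AWC Pool.Agent.Y63.KR
open Pool.Agent.Q100.IV (DZ)

noncomputable section

namespace Pool.Agent.Q100.CQ

/-- the sum of the linear characters -/
lemma sum_lin {Q : Type} [CommGroup Q] [Finite Q] [Fintype (Q →* ℂˣ)] (x : Q) :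
    ∑ l : Q →* ℂˣ, ((l x : ℂˣ) : ℂ) = if x = 1 then (Nat.card Q : ℂ) else 0 := by
  have : NeZero (Monoid.exponent Q) := ⟨Monoid.exponent_ne_zero_of_finite⟩
  by_cases hx : x = 1
  · rw [if_pos hx, hx]
    simp only [map_one, Units.val_one, Finset.sum_const, nsmul_eq_mul, mul_one]
    obtain ⟨e⟩ := CommGroup.monoidHom_mulEquiv_of_hasEnoughRootsOfUnity Q ℂ
    rw [Finset.card_univ, ← Nat.card_eq_fintype_card, Nat.card_congr e.toEquiv]
  · rw [if_neg hx]
    obtain ⟨φ, hφ⟩ := CommGroup.exists_apply_ne_one_of_hasEnoughRootsOfUnity Q ℂ hx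
    have h1 : ∑ l : Q →* ℂˣ, ((l x : ℂˣ) : ℂ) =
        ((φ x : ℂˣ) : ℂ) * ∑ l : Q →* ℂˣ, ((l x : ℂˣ) : ℂ) := by
      rw [Finset.mul_sum]
      refine Fintype.sum_equiv (Equiv.mulLeft φ⁻¹) _ _ fun l => ?_
      rw [Equiv.coe_mulLeft, MonoidHom.mul_apply, MonoidHom.inv_apply, Units.val_mul,
        ← mul_assoc, ← Units.val_mul, mul_inv_cancel, Units.val_one, one_mul]
    have h2 : ((φ x : ℂˣ) : ℂ) ≠ 1 := fun h => hφ (Units.ext h)
    have h3 : (((φ x : ℂˣ) : ℂ) - 1) * ∑ l : Q →* ℂˣ, ((l x : ℂˣ) : ℂ) = 0 := by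
      rw [sub_mul, one_mul, ← h1, sub_self]
    rcases mul_eq_zero.mp h3 with h4 | h4
    · exact absurd (sub_eq_zero.mp h4) h2
    · exact h4

variable {K M : Type} [Group K] [Group M] [Fintype K] [Fintype M]
variable {ι : K →* M} {α : M → K ≃* K}

lemma CJ.mul (h : CJ ι α) (y z : M) (x : K) : α (y * z) x = α y (α z x) := by
  apply h.inj
  rw [h.cj, h.cj, h.cj]
  group

lemma CJ.one (h : CJ ι α) (x : K) : α 1 x = x := by
  apply h.inj
  rw [h.cj]
  group

/-- the action on functions -/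
@[reducible] def act (h : CJ ι α) : MulAction M (K → ℂ) where
  smul y f := fun x => f (α y⁻¹ x)
  one_smul f := by
    funext x
    change f (α 1⁻¹ x) = f x
    rw [inv_one, h.one]
  mul_smul y z f := by
    funext x
    change f (α (y * z)⁻¹ x) = f (α z⁻¹ (α y⁻¹ x))
    rw [mul_inv_rev, h.mul]

/-- the orbit of `θ` -/
def orb (α : M → K ≃* K) (θ : K → ℂ) : Finset (K → ℂ) :=
  Finset.univ.image (fun y : M => fun x => θ (α y x))

lemma mem_orb {θ θ' : K → ℂ} : θ' ∈ orb α θ ↔ ∃ y : M, (fun x => θ (α y x)) = θ' := by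
  unfold orb
  simp

lemma self_mem_orb (h : CJ ι α) (θ : K → ℂ) : θ ∈ orb α θ :=
  mem_orb.mpr ⟨1, funext fun x => by rw [h.one]⟩

lemma orb_stab (h : CJ ι α) (θ : K → ℂ) : Stab α (orb α θ) := by
  intro y θ' h'
  obtain ⟨z, rfl⟩ := mem_orb.mp h'
  exact mem_orb.mpr ⟨z * y, funext fun x => by rw [h.mul]⟩

lemma orb_irr {θ : K → ℂ} (hθ : IsIrrChar θ) : orb α θ ⊆ Irr K := by
  intro θ' h'
  obtain ⟨z, rfl⟩ := mem_orb.mp h'
  exact mem_Irr.mpr (irr_comp (α z) hθ)

lemma orb_card (h : CJ ι α) [ι.range.Normal] {θ : K → ℂ} (hθ : IsClass θ) :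
    (orb α θ).card ∣ Nat.card (M ⧸ ι.range) := by
  let _ := act h
  have h1 : ((orb α θ : Finset (K → ℂ)) : Set (K → ℂ)) = MulAction.orbit M θ := by
    ext θ'
    rw [Finset.mem_coe, mem_orb, MulAction.mem_orbit_iff]
    constructor
    · rintro ⟨y, rfl⟩
      refine ⟨y⁻¹, ?_⟩
      change (fun x => θ (α y⁻¹⁻¹ x)) = _
      rw [inv_inv]
    · rintro ⟨y, rfl⟩
      exact ⟨y⁻¹, rfl⟩
  rw [← Set.ncard_coe_finset, h1, ← MulAction.index_stabilizer]
  refine Subgroup.index_dvd_of_le ?_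
  rintro _ ⟨w, rfl⟩
  rw [MulAction.mem_stabilizer_iff]
  change (fun x => θ (α (ι w)⁻¹ x)) = θ
  funext x
  have : α (ι w)⁻¹ x = w⁻¹ * x * w⁻¹⁻¹ := by
    apply h.inj
    rw [h.cj]
    simp [map_mul, map_inv]
  rw [this, hθ]

/-- all constituents are conjugate -/
lemma clifford (h : CJ ι α) {χ : M → ℂ} (hχ : IsIrrChar χ) {θ θ' : K → ℂ} (hθ : IsIrrChar θ)
    (hθ' : IsIrrChar θ') (h1 : mlt ι θ χ ≠ 0) (h2 : mlt ι θ' χ ≠ 0) : θ' ∈ orb α θ := by
  by_contra hn
  have hsum : ∀ {θ : K → ℂ}, IsIrrChar θ → mlt ι θ χ ≠ 0 → SS' ι (orb α θ) χ = χ 1 := by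
    intro θ hθ h1
    rcases dich h (orb_irr hθ) (orb_stab h θ) hχ with h3 | h3
    · exfalso
      have h4 : SS' ι (orb α θ) χ = ((orb α θ).card : ℂ) * (θ 1 * mlt ι θ χ) := by
        unfold SS'
        rw [Finset.sum_congr rfl (g := fun _ => θ 1 * mlt ι θ χ), Finset.sum_const, nsmul_eq_mul]
        intro θ'' h''
        obtain ⟨y, rfl⟩ := mem_orb.mp h''
        rw [mlt_conj h θ hχ.isClass y]
        simp only [map_one]
      rw [h4] at h3
      refine mul_ne_zero ?_ (mul_ne_zero (one_ne hθ) h1) h3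
      exact_mod_cast (Finset.card_pos.mpr ⟨θ, self_mem_orb h θ⟩).ne'
    · exact h3
  have hdisj : Disjoint (orb α θ) (orb α θ') := by
    rw [Finset.disjoint_left]
    intro η h3 h4
    obtain ⟨y, rfl⟩ := mem_orb.mp h3
    obtain ⟨z, hz⟩ := mem_orb.mp h4
    apply hn
    refine mem_orb.mpr ⟨y * z⁻¹, funext fun x => ?_⟩
    have : θ' (α z (α z⁻¹ x)) = θ (α y (α z⁻¹ x)) := congrFun hz (α z⁻¹ x)
    rw [← h.mul, ← h.mul, mul_inv_cancel, h.one] at this
    exact this.symm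
  have h5 : SS' ι (orb α θ ∪ orb α θ') χ = χ 1 + χ 1 := by
    unfold SS'
    rw [Finset.sum_union hdisj]
    have e1 := hsum hθ h1
    have e2 := hsum hθ' h2
    unfold SS' at e1 e2
    rw [e1, e2]
  have hne := one_ne hχ
  have hst : Stab α (orb α θ ∪ orb α θ') := by
    intro y η hη
    rcases Finset.mem_union.mp hη with h6 | h6
    · exact Finset.mem_union_left _ (orb_stab h θ y η h6)
    · exact Finset.mem_union_right _ (orb_stab h θ' y η h6)
  rcases dich h (Finset.union_subset (orb_irr (α := α) hθ) (orb_irr (α := α) hθ')) hst hχ with h3 | h3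
  · rw [h5] at h3
    apply hne
    linear_combination h3 / 2
  · rw [h5] at h3
    apply hne
    linear_combination h3

/-- the norm of the restriction -/
lemma norm_res (h : CJ ι α) [ι.range.Normal] (hab : ∀ x y : M, x * y * x⁻¹ * y⁻¹ ∈ ι.range)
    {χ : M → ℂ} (hχ : IsIrrChar χ) : ∃ s : ℕ, s ∣ Nat.card (M ⧸ ι.range) ∧
      B (fun x => χ (ι x)) (fun x => χ (ι x)) = (s : ℂ) := by
  let _ : CommGroup (M ⧸ ι.range) := { (inferInstance : Group (M ⧸ ι.range)) with
    mul_comm := by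
      intro a b
      obtain ⟨x, rfl⟩ := QuotientGroup.mk_surjective a
      obtain ⟨y, rfl⟩ := QuotientGroup.mk_surjective b
      rw [← QuotientGroup.mk_mul, ← QuotientGroup.mk_mul, QuotientGroup.eq]
      have := hab y⁻¹ x⁻¹
      have e : y⁻¹ * x⁻¹ * y⁻¹⁻¹ * x⁻¹⁻¹ = (x * y)⁻¹ * (y * x) := by group
      rwa [e] at this }
  have : NeZero (Monoid.exponent (M ⧸ ι.range)) := ⟨Monoid.exponent_ne_zero_of_finite⟩
  obtain ⟨e⟩ := CommGroup.monoidHom_mulEquiv_of_hasEnoughRootsOfUnity (M ⧸ ι.range) ℂ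
  have : Finite ((M ⧸ ι.range) →* ℂˣ) := Finite.of_equiv _ e.symm.toEquiv
  have : Fintype ((M ⧸ ι.range) →* ℂˣ) := Fintype.ofFinite _
  let S : Subgroup ((M ⧸ ι.range) →* ℂˣ) :=
    { carrier := {l | ∀ g : M, ((l (g : M ⧸ ι.range) : ℂˣ) : ℂ) * χ g = χ g}
      mul_mem' := by
        intro a b ha hb g
        rw [MonoidHom.mul_apply, Units.val_mul, mul_assoc, hb g, ha g]
      one_mem' := by
        intro g
        simp
      inv_mem' := by
        intro a ha g
        have h1 := ha g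
        conv_lhs => rw [← h1]
        rw [MonoidHom.inv_apply, ← mul_assoc, ← Units.val_mul, inv_mul_cancel, Units.val_one,
          one_mul] }
  refine ⟨Nat.card S, ?_, ?_⟩
  · rw [← Nat.card_congr e.toEquiv]
    exact Subgroup.card_subgroup_dvd_card S
  · have hM := cardG_ne (G := M)
    have hK := cardG_ne (G := K)
    have hQ : (Nat.card (M ⧸ ι.range) : ℂ) * Nat.card K = Nat.card M := by
      have h1 := Subgroup.card_eq_card_quotient_mul_card_subgroup ι.range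
      have h2 : Nat.card ι.range = Nat.card K :=
        (Nat.card_congr (MonoidHom.ofInjective h.inj).toEquiv).symm
      rw [h2] at h1
      exact_mod_cast h1.symm
    have h1 : ∀ l : (M ⧸ ι.range) →* ℂˣ,
        B (fun g : M => ((l (g : M ⧸ ι.range) : ℂˣ) : ℂ) * χ g) χ = if l ∈ S then 1 else 0 := by
      intro l
      have hl : IsIrrChar (fun g : M => ((l (g : M ⧸ ι.range) : ℂˣ) : ℂ) * χ g) :=
        Pool.Agent.Y62.irr_twist hχ (l.comp (QuotientGroup.mk' ι.range))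
      rw [B_irr hl hχ]
      by_cases h2 : l ∈ S
      · rw [if_pos h2, if_pos (funext h2)]
      · rw [if_neg h2, if_neg (fun h3 => h2 fun g => congrFun h3 g)]
    have h2 : ∑ l : (M ⧸ ι.range) →* ℂˣ,
        B (fun g : M => ((l (g : M ⧸ ι.range) : ℂˣ) : ℂ) * χ g) χ = (Nat.card S : ℂ) := by
      rw [Finset.sum_congr rfl fun l _ => h1 l, Finset.sum_boole]
      congr 1
      rw [Nat.card_eq_fintype_card, Fintype.card_subtype]
    rw [← h2]
    unfold B
    rw [← Finset.mul_sum, Finset.sum_comm]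
    have h3 : ∀ g : M, ∑ l : (M ⧸ ι.range) →* ℂˣ,
        ((l (g : M ⧸ ι.range) : ℂˣ) : ℂ) * χ g * χ g⁻¹ =
        (Nat.card (M ⧸ ι.range) : ℂ) * (push ι (fun _ => 1) g * (χ g * χ g⁻¹)) := by
      intro g
      rw [← Finset.sum_mul, ← Finset.sum_mul, sum_lin]
      by_cases hg : g ∈ ι.range
      · rw [if_pos ((QuotientGroup.eq_one_iff g).mpr hg)]
        obtain ⟨x, rfl⟩ := hg
        rw [push_apply h.inj]
        ring
      · rw [if_neg (fun h4 => hg ((QuotientGroup.eq_one_iff g).mp h4)), push_zero _ hg]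
        ring
    rw [Finset.sum_congr rfl fun g _ => h3 g, ← Finset.mul_sum,
      sum_push ι (fun _ => 1) (fun g => χ g * χ g⁻¹), ← hQ]
    have hQ0 : (Nat.card (M ⧸ ι.range) : ℂ) ≠ 0 := by exact_mod_cast Nat.card_pos.ne'
    simp only [one_mul, ← map_inv]
    field_simp

/-- the degrees -/
theorem degree (h : CJ ι α) [ι.range.Normal] (hab : ∀ x y : M, x * y * x⁻¹ * y⁻¹ ∈ ι.range)
    {χ : M → ℂ} (hχ : IsIrrChar χ) {θ : K → ℂ} (hθ : IsIrrChar θ) (hm : mlt ι θ χ ≠ 0) :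
    ∃ s t : ℕ, s ∣ Nat.card (M ⧸ ι.range) ∧ t ∣ Nat.card (M ⧸ ι.range) ∧
      χ 1 ^ 2 = (t : ℂ) * s * θ 1 ^ 2 := by
  obtain ⟨s, hs, hB⟩ := norm_res h hab hχ
  refine ⟨s, (orb α θ).card, hs, orb_card h hθ.isClass, ?_⟩
  have hcl := res_class h hχ.isClass
  rw [B_expand _ _ hcl] at hB
  have h1 : ∑ ψ ∈ Irr K, B (fun x => χ (ι x)) ψ * B ψ (fun x => χ (ι x)) =
      ((orb α θ).card : ℂ) * (mlt ι θ χ) ^ 2 := by
    rw [← Finset.sum_subset (orb_irr (α := α) hθ)]
    · rw [Finset.sum_congr rfl (g := fun _ => (mlt ι θ χ) ^ 2), Finset.sum_const, nsmul_eq_mul]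
      intro θ'' h''
      obtain ⟨y, rfl⟩ := mem_orb.mp h''
      rw [B_comm (fun x => χ (ι x))]
      have := mlt_conj h θ hχ.isClass y
      unfold mlt at this
      rw [this]
      unfold mlt
      ring
    · intro ψ hψ hn
      rw [B_comm (fun x => χ (ι x))]
      have : mlt ι ψ χ = 0 := by
        by_contra h2
        exact hn (clifford h hχ hθ (mem_Irr.mp hψ) hm h2)
      unfold mlt at this
      rw [this, mul_zero]
  have h2 : SS' ι (Irr K) χ = ((orb α θ).card : ℂ) * (θ 1 * mlt ι θ χ) := by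
    unfold SS'
    rw [← Finset.sum_subset (orb_irr (α := α) hθ)]
    · rw [Finset.sum_congr rfl (g := fun _ => θ 1 * mlt ι θ χ), Finset.sum_const, nsmul_eq_mul]
      intro θ'' h''
      obtain ⟨y, rfl⟩ := mem_orb.mp h''
      rw [mlt_conj h θ hχ.isClass y]
      simp only [map_one]
    · intro ψ hψ hn
      have : mlt ι ψ χ = 0 := by
        by_contra h2
        exact hn (clifford h hχ hθ (mem_Irr.mp hψ) hm h2)
      rw [this, mul_zero]
  rw [SS_all χ hcl] at h2
  rw [h1] at hB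
  rw [h2, ← hB]
  ring

end Pool.Agent.Q100.CQ
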