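import Pool.Agent.Q100.CQ.Psi

set_option autoImplicit false
set_option linter.unusedSectionVars false

/-!
# Cyclic quotients
-/

open scoped Classical BigOperators
open Pool.Agent.Helper884.IC Pool.Agent.Y63.KR
open Pool.Agent.Y63.AWC hiding DZ
open Pool.Agent.Q100.IV

noncomputable section

namespace Pool.Agent.Q100.CQ

section abstract

variable {C : Type} [Group C] [Finite C] {p : ℕ} [hp : Fact p.Prime] {N : C → C → ℂ}

/-- the sum over the cosets `D` and `D e` -/
def DS (N : C → C → ℂ) (D : Subgroup C) (e : C) : ℂ :=
  letI : Fintype C := Fintype.ofFinite C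
  ∑ q ∈ Finset.univ.filter (fun q : C × C => q.1 ∈ D ∧ q.2 * e⁻¹ ∈ D), N q.1 q.2

theorem nn_iff (hN : Sym N) (hcyc : IsCyclic C) :
    (∀ D : Subgroup C, ¬ p ∣ Nat.card D → ∀ e : C, (∃ a : ℕ, orderOf e = p ^ a) → DS N D e = 0) ↔
      ∀ g : C, N 1 g = 0 := by
  let _ : Fintype C := Fintype.ofFinite C
  have hcomm : ∀ a b : C, a * b = b * a := fun a b => by
    obtain ⟨g, hg⟩ := hcyc.exists_generator
    obtain ⟨i, rfl⟩ := Subgroup.mem_zpowers_iff.mp (hg a)
    obtain ⟨j, rfl⟩ := Subgroup.mem_zpowers_iff.mp (hg b)
    rw [← zpow_add, ← zpow_add, add_comm]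
  have hgen : ∀ a b : C, ∃ g : C, Subgroup.closure ({a, b} : Set C) = Subgroup.zpowers g := by
    intro a b
    have h1 : IsCyclic (Subgroup.closure ({a, b} : Set C)) := inferInstance
    obtain ⟨v, hv⟩ := h1.exists_generator
    refine ⟨(v : C), le_antisymm ?_ ?_⟩
    · intro x hx
      obtain ⟨k, hk⟩ := Subgroup.mem_zpowers_iff.mp (hv ⟨x, hx⟩)
      rw [Subgroup.mem_zpowers_iff]
      exact ⟨k, congrArg Subtype.val hk⟩
    · rw [Subgroup.zpowers_le]
      exact v.2
  constructor
  · intro H
    obtain ⟨γ, β, A, m, hNm, hm, hγ, hmγ, hβ, hβm, -⟩ :=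
      exists_exps hp.out (N := Nat.card C) Nat.card_pos.ne'
    have hall : ∀ x : C, x ^ Nat.card C = 1 := fun x => pow_card_eq_one'
    have hP : ∀ e : C, e ^ p ^ A = 1 → e ^ γ = e ∧ e ^ β = 1 := by
      intro e he
      have hd : orderOf e ∣ p ^ A := orderOf_dvd_of_pow_eq_one he
      refine ⟨?_, orderOf_dvd_iff_pow_eq_one.mp (hd.trans hβ)⟩
      conv_rhs => rw [← pow_one e]
      exact pow_eq_pow_iff_modEq.mpr (hγ.of_dvd hd)
    have hR : ∀ c : C, c ^ m = 1 → c ^ γ = 1 ∧ c ^ β = c := by
      intro c hc
      have hd : orderOf c ∣ m := orderOf_dvd_of_pow_eq_one hc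
      refine ⟨orderOf_dvd_iff_pow_eq_one.mp (hd.trans hmγ), ?_⟩
      conv_rhs => rw [← pow_one c]
      exact pow_eq_pow_iff_modEq.mpr (hβm.of_dvd hd)
    have hsplit : ∀ (e : C), e ^ p ^ A = 1 → ∀ a b g : C, a ^ m = 1 → b ^ m = 1 → g ^ m = 1 →
        Subgroup.closure ({a, b} : Set C) = Subgroup.zpowers g →
        Subgroup.closure ({a, b * e} : Set C) = Subgroup.zpowers (e * g) := by
      intro e he a b g ha hb hg hab
      have hpe := hP e he
      have hrg := hR g hg
      have hrb := hR b hb
      have e1 : (e * g) ^ γ = e := by
        rw [(Commute.mul_pow (hcomm e g) γ), hpe.1, hrg.1, mul_one]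
      have e2 : (e * g) ^ β = g := by
        rw [(Commute.mul_pow (hcomm e g) β), hpe.2, hrg.2, one_mul]
      have e3 : (b * e) ^ γ = e := by
        rw [(Commute.mul_pow (hcomm b e) γ), hpe.1, hrb.1, one_mul]
      have e4 : (b * e) ^ β = b := by
        rw [(Commute.mul_pow (hcomm b e) β), hpe.2, hrb.2, mul_one]
      have heg : e ∈ Subgroup.zpowers (e * g) := ⟨(γ : ℤ), by simpa using e1⟩
      have hgg : g ∈ Subgroup.zpowers (e * g) := ⟨(β : ℤ), by simpa using e2⟩
      have hle : Subgroup.closure ({a, b} : Set C) ≤ Subgroup.zpowers (e * g) := by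
        rw [hab, Subgroup.zpowers_le]
        exact hgg
      apply le_antisymm
      · rw [Subgroup.closure_le]
        rintro x (rfl | hx)
        · exact hle (Subgroup.subset_closure (by simp))
        · have hx' : x = b * e := hx
          rw [hx']
          exact Subgroup.mul_mem _ (hle (Subgroup.subset_closure (by simp))) heg
      · rw [Subgroup.zpowers_le]
        have hbe : b * e ∈ Subgroup.closure ({a, b * e} : Set C) :=
          Subgroup.subset_closure (by simp)
        have hb' : b ∈ Subgroup.closure ({a, b * e} : Set C) := by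
          have := Subgroup.pow_mem _ hbe β
          rwa [e4] at this
        have he' : e ∈ Subgroup.closure ({a, b * e} : Set C) := by
          have := Subgroup.pow_mem _ hbe γ
          rwa [e3] at this
        refine Subgroup.mul_mem _ he' ?_
        have h1 : Subgroup.closure ({a, b} : Set C) ≤ Subgroup.closure ({a, b * e} : Set C) := by
          rw [Subgroup.closure_le]
          rintro x (rfl | hx)
          · exact Subgroup.subset_closure (by simp)
          · have hx' : x = b := hx
            rw [hx']
            exact hb'
        apply h1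
        rw [hab]
        exact Subgroup.mem_zpowers g
    -- the induction
    have main : ∀ (e : C), e ^ p ^ A = 1 → ∀ (n : ℕ) (c : C), c ^ m = 1 → orderOf c ≤ n →
        N 1 (e * c) = 0 := by
      intro e he n
      induction n with
      | zero =>
        intro c _ hc
        have := orderOf_pos c
        omega
      | succ n ih =>
        intro c hcm hcn
        set D := Subgroup.zpowers c with hD
        have hDm : ∀ x ∈ D, x ^ m = 1 := by
          intro x hx
          obtain ⟨k, rfl⟩ := Subgroup.mem_zpowers_iff.mp hx
          rw [← zpow_natCast, ← zpow_mul, mul_comm, zpow_mul, zpow_natCast, hcm, one_zpow]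
        have hpD : ¬ p ∣ Nat.card D := by
          rw [hD, Nat.card_zpowers]
          exact fun h => hm (h.trans (orderOf_dvd_of_pow_eq_one hcm))
        have hS := H D hpD e (by
          obtain ⟨a, -, ha⟩ := (Nat.dvd_prime_pow hp.out).mp (orderOf_dvd_of_pow_eq_one he)
          exact ⟨a, ha⟩)
        have hterm : ∀ q ∈ Finset.univ.filter (fun q : C × C => q.1 ∈ D ∧ q.2 * e⁻¹ ∈ D),
            N q.1 q.2 = if Subgroup.closure ({q.1, q.2 * e⁻¹} : Set C) = D then N 1 (e * c) else 0 := by
          intro q hq
          rw [Finset.mem_filter] at hq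
          obtain ⟨-, h1, h2⟩ := hq
          obtain ⟨g, hg⟩ := hgen q.1 (q.2 * e⁻¹)
          have hle : Subgroup.closure ({q.1, q.2 * e⁻¹} : Set C) ≤ D := by
            rw [Subgroup.closure_le]
            rintro x (rfl | hx)
            · exact h1
            · have hx' : x = q.2 * e⁻¹ := hx
              rw [hx']
              exact h2
          have hgD : g ∈ D := by
            apply hle
            rw [hg]
            exact Subgroup.mem_zpowers g
          have h3 := hsplit e he q.1 (q.2 * e⁻¹) g (hDm _ h1) (hDm _ h2) (hDm _ hgD) hg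
          rw [inv_mul_cancel_right] at h3
          rw [hN.gen h3]
          by_cases h4 : Subgroup.closure ({q.1, q.2 * e⁻¹} : Set C) = D
          · rw [if_pos h4]
            have h5 := hsplit e he 1 c c (one_pow m) hcm hcm (by
              apply le_antisymm
              · rw [Subgroup.closure_le]
                rintro x (rfl | hx)
                · exact Subgroup.one_mem _
                · have hx' : x = c := hx
                  rw [hx']
                  exact Subgroup.mem_zpowers c
              · rw [Subgroup.zpowers_le]
                exact Subgroup.subset_closure (by simp))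
            have h6 := hsplit e he 1 c g (one_pow m) hcm (hDm _ hgD) (by
              rw [← hg, h4, hD]
              apply le_antisymm
              · rw [Subgroup.closure_le]
                rintro x (rfl | hx)
                · exact Subgroup.one_mem _
                · have hx' : x = c := hx
                  rw [hx']
                  exact Subgroup.mem_zpowers c
              · rw [Subgroup.zpowers_le]
                exact Subgroup.subset_closure (by simp))
            rw [← hN.gen h5, ← hN.gen h6]
          · rw [if_neg h4]
            refine ih g (hDm _ hgD) ?_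
            have h5 : Subgroup.zpowers g < D := by
              rw [← hg]
              exact lt_of_le_of_ne hle h4
            have h6 : Nat.card (Subgroup.zpowers g) < Nat.card D := by
              have hfin : Set.Finite ((D : Subgroup C) : Set C) := Set.toFinite _
              exact Set.ncard_lt_ncard h5 hfin
            rw [Nat.card_zpowers, hD, Nat.card_zpowers] at h6
            omega
        unfold DS at hS
        rw [Finset.sum_congr rfl hterm, ← Finset.sum_filter, Finset.sum_const, nsmul_eq_mul] at hS
        rcases mul_eq_zero.mp hS with h1 | h1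
        · exfalso
          have h2 : (1, c * e) ∈ (Finset.univ.filter (fun q : C × C => q.1 ∈ D ∧ q.2 * e⁻¹ ∈ D)).filter
              (fun q => Subgroup.closure ({q.1, q.2 * e⁻¹} : Set C) = D) := by
            rw [Finset.mem_filter, Finset.mem_filter]
            have e5 : c * e * e⁻¹ = c := mul_inv_cancel_right c e
            refine ⟨⟨Finset.mem_univ _, D.one_mem, ?_⟩, ?_⟩
            · change c * e * e⁻¹ ∈ D
              rw [e5]
              exact Subgroup.mem_zpowers c
            · change Subgroup.closure ({1, c * e * e⁻¹} : Set C) = D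
              rw [e5, hD]
              apply le_antisymm
              · rw [Subgroup.closure_le]
                rintro x (rfl | hx)
                · exact Subgroup.one_mem _
                · have hx' : x = c := hx
                  rw [hx']
                  exact Subgroup.mem_zpowers c
              · rw [Subgroup.zpowers_le]
                exact Subgroup.subset_closure (by simp)
          have h3 := Finset.card_pos.mpr ⟨_, h2⟩
          have h4 : (Finset.card ((Finset.univ.filter (fun q : C × C => q.1 ∈ D ∧ q.2 * e⁻¹ ∈ D)).filter
              (fun q => Subgroup.closure ({q.1, q.2 * e⁻¹} : Set C) = D))) = 0 := by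
            exact_mod_cast h1
          omega
        · exact h1
    intro g
    have h1 : g = g ^ γ * g ^ β := by
      rw [← pow_add]
      conv_lhs => rw [← pow_one g]
      apply pow_eq_pow_iff_modEq.mpr
      have h2 : orderOf g ∣ p ^ A * m := by rw [← hNm]; exact orderOf_dvd_natCard g
      refine Nat.ModEq.of_dvd h2 ?_
      have hcop : Nat.Coprime (p ^ A) m := ((Nat.Prime.coprime_iff_not_dvd hp.out).mpr hm).pow_left A
      refine (Nat.modEq_and_modEq_iff_modEq_mul hcop).mp ⟨?_, ?_⟩
      · calc 1 ≡ γ + 0 [MOD p ^ A] := by simpa using hγ.symm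
          _ ≡ γ + β [MOD p ^ A] := Nat.ModEq.add_left _ ((Nat.modEq_zero_iff_dvd.mpr hβ).symm)
      · calc 1 ≡ 0 + β [MOD m] := by simpa using hβm.symm
          _ ≡ γ + β [MOD m] := Nat.ModEq.add_right _ ((Nat.modEq_zero_iff_dvd.mpr hmγ).symm)
    rw [h1]
    refine main (g ^ γ) ?_ (orderOf (g ^ β)) (g ^ β) ?_ le_rfl
    · rw [← pow_mul]
      obtain ⟨c, hc⟩ := hmγ
      have : γ * p ^ A = Nat.card C * c := by rw [hc, hNm]; ring
      rw [this, pow_mul, hall, one_pow]
    · rw [← pow_mul]
      obtain ⟨c, hc⟩ := hβ
      have : β * m = Nat.card C * c := by rw [hc, hNm]; ring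
      rw [this, pow_mul, hall, one_pow]
  · intro H D _ e _
    unfold DS
    refine Finset.sum_eq_zero fun q _ => ?_
    obtain ⟨g, hg⟩ := hgen q.1 q.2
    rw [hN.gen hg, H g]

end abstract

end Pool.Agent.Q100.CQ
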