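import Pool.Agent.Q100.CQ.Fin

set_option autoImplicit false
set_option linter.unusedSectionVars false

/-!
# Cyclic quotients: the equivalence
-/

open scoped Classical BigOperators
open Pool.Agent.Helper884.IC Pool.Agent.Y63.KR
open Pool.Agent.Y63.AWC hiding DZ
open Pool.Agent.Q100.IV

noncomputable section

namespace Pool.Agent.Q100.CQ

variable {E : Type} [Group E] [Finite E] {p : ℕ} [hp : Fact p.Prime] {G : Subgroup E} [hG : G.Normal]

lemma normal_of_comm (hab : ∀ x y : E, x * y * x⁻¹ * y⁻¹ ∈ G) {M : Subgroup E} (hGM : G ≤ M) :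
    M.Normal := by
  constructor
  intro m hm y
  have h1 : y * m * y⁻¹ = (y * m * y⁻¹ * m⁻¹) * m := by group
  rw [h1]
  exact M.mul_mem (hGM (hab y m)) hm

lemma op_bot (hO : Op p G = ⊥) {M : Subgroup E} (hGM : G ≤ M) (hpM : ¬ p ∣ G.relIndex M) :
    Op p M = ⊥ := by
  have h1 := op_np (p := p) M
  have h2 : Op p M ≤ G := mem_of_ppow hpM h1.pg h1.le
  have h3 : NP p G (Op p M) := ⟨h2, h1.pg, fun g hg => h1.nrm g (hGM hg)⟩
  rw [eq_bot_iff, ← hO]
  exact le_op h3

/-- the sum for `M` in terms of the sums for `G` -/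
theorem card_mul_Dd' (hab : ∀ x y : E, x * y * x⁻¹ * y⁻¹ ∈ G) (hO : Op p G = ⊥)
    {M : Subgroup E} [M.Normal] (hGM : G ≤ M) (hpM : ¬ p ∣ G.relIndex M) (e : E) :
    (Nat.card M : ℂ) * Dd p M e = DS (NN p G) (M.map (QuotientGroup.mk' G)) (e : E ⧸ G) := by
  let _ : Fintype E := Fintype.ofFinite E
  let _ : Fintype (E ⧸ G) := Fintype.ofFinite _
  have hmem : ∀ x : E, ((x : E ⧸ G) ∈ M.map (QuotientGroup.mk' G)) ↔ x ∈ M := by
    intro x
    rw [Subgroup.mem_map]
    constructor
    · rintro ⟨y, hy, hyx⟩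
      have h1 : (y : E ⧸ G) = (x : E ⧸ G) := hyx
      rw [QuotientGroup.eq] at h1
      have : x = y * (y⁻¹ * x) := by group
      rw [this]
      exact M.mul_mem hy (hGM h1)
    · intro hx
      exact ⟨x, hx, rfl⟩
  rw [card_mul_Dd (op_bot hO hGM hpM) e]
  rw [Finset.sum_congr rfl fun q _ => psi_eq hGM (fun x _ y _ => hab x y) hpM q.1 q.2]
  unfold DS
  rw [← Finset.sum_fiberwise_of_maps_to (g := fun q : E × E => ((q.1 : E ⧸ G), (q.2 : E ⧸ G)))
    (t := Finset.univ.filter (fun q : (E ⧸ G) × (E ⧸ G) => q.1 ∈ M.map (QuotientGroup.mk' G) ∧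
      q.2 * (e : E ⧸ G)⁻¹ ∈ M.map (QuotientGroup.mk' G)))]
  · refine Finset.sum_congr ?_ fun t ht => ?_
    · ext q
      simp only [Finset.mem_filter, Finset.mem_univ, true_and]
    · unfold NN
      refine Finset.sum_congr ?_ fun _ _ => rfl
      ext q
      rw [Finset.mem_filter, Finset.mem_filter, Finset.mem_filter]
      rw [Finset.mem_filter] at ht
      constructor
      · rintro ⟨-, h2⟩
        exact ⟨Finset.mem_univ _, congrArg Prod.fst h2, congrArg Prod.snd h2⟩
      · rintro ⟨-, h2, h3⟩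
        refine ⟨⟨Finset.mem_univ _, ?_, ?_⟩, Prod.ext h2 h3⟩
        · rw [← hmem, h2]
          exact ht.2.1
        · rw [← hmem, QuotientGroup.mk_mul, QuotientGroup.mk_inv, h3]
          exact ht.2.2
  · intro q hq
    rw [Finset.mem_filter] at hq ⊢
    refine ⟨Finset.mem_univ _, (hmem _).mpr hq.2.1, ?_⟩
    change (q.2 : E ⧸ G) * (e : E ⧸ G)⁻¹ ∈ _
    rw [← QuotientGroup.mk_inv, ← QuotientGroup.mk_mul]
    exact (hmem _).mpr hq.2.2

theorem card_mul_Dd_G (hO : Op p G = ⊥) (e : E) :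
    (Nat.card G : ℂ) * Dd p G e = NN p G 1 (e : E ⧸ G) := by
  let _ : Fintype E := Fintype.ofFinite E
  rw [card_mul_Dd hO e]
  unfold NN
  refine Finset.sum_congr ?_ fun _ _ => rfl
  ext q
  rw [Finset.mem_filter, Finset.mem_filter, QuotientGroup.eq_one_iff, coset_iff]

/-- from the cosets to the subgroups -/
theorem kU_of_aa (hcyc : IsCyclic (E ⧸ G))
    (hone : ∀ e : E, radSum p G (fun S => (aa G S e : ℤ)) = (zinv p G e : ℤ))
    (U : Subgroup (E ⧸ G)) :
    radSum p G (fun S => (kU G S U : ℤ)) = (zU p G U : ℤ) := by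
  have : Fintype (Subgroup (E ⧸ G)) := Fintype.ofFinite _
  suffices h : ∀ (n : ℕ) (V : Subgroup (E ⧸ G)), V.index ≤ n →
      radSum p G (fun S => (kU G S V : ℤ)) = (zU p G V : ℤ) from h U.index U le_rfl
  intro n
  induction n with
  | zero =>
    intro V hV
    have : V.index ≠ 0 := V.index_ne_zero_of_finite
    omega
  | succ n ih =>
    intro V hV
    obtain ⟨v, hv⟩ := IsCyclic.exists_generator (α := V)
    obtain ⟨e, he⟩ := QuotientGroup.mk_surjective (v : E ⧸ G)
    have hVe : V = Subgroup.zpowers (e : E ⧸ G) := by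
      apply le_antisymm
      · intro x hx
        obtain ⟨k, hk⟩ := Subgroup.mem_zpowers_iff.mp (hv ⟨x, hx⟩)
        rw [Subgroup.mem_zpowers_iff]
        refine ⟨k, ?_⟩
        rw [he]
        exact congrArg Subtype.val hk
      · rw [Subgroup.zpowers_le, he]
        exact v.2
    have h1 := hone e
    have h2 : (fun S => (aa G S e : ℤ)) = fun S => ∑ W ∈ Finset.univ.filter
        (fun W : Subgroup (E ⧸ G) => (e : E ⧸ G) ∈ W), (kU G S W : ℤ) := by
      funext S
      rw [aa_eq_sum]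
      push_cast
      rfl
    have h3 : (zinv p G e : ℤ) = ∑ W ∈ Finset.univ.filter
        (fun W : Subgroup (E ⧸ G) => (e : E ⧸ G) ∈ W), (zU p G W : ℤ) := by
      rw [zinv_eq_sum]
      push_cast
      rfl
    have hVmem : V ∈ Finset.univ.filter (fun W : Subgroup (E ⧸ G) => (e : E ⧸ G) ∈ W) := by
      rw [Finset.mem_filter, hVe]
      exact ⟨Finset.mem_univ _, Subgroup.mem_zpowers _⟩
    rw [h2, radSum_sum, h3, ← Finset.add_sum_erase _ _ hVmem, ← Finset.add_sum_erase _ _ hVmem] at h1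
    have h4 : ∑ W ∈ (Finset.univ.filter (fun W : Subgroup (E ⧸ G) => (e : E ⧸ G) ∈ W)).erase V,
        radSum p G (fun S => (kU G S W : ℤ)) =
        ∑ W ∈ (Finset.univ.filter (fun W : Subgroup (E ⧸ G) => (e : E ⧸ G) ∈ W)).erase V,
          (zU p G W : ℤ) := by
      refine Finset.sum_congr rfl fun W hW => ?_
      rw [Finset.mem_erase, Finset.mem_filter] at hW
      have h5 : V ≤ W := by
        rw [hVe, Subgroup.zpowers_le]
        exact hW.2.2
      have h6 : W.index < V.index := Subgroup.index_strictAnti (lt_of_le_of_ne h5 (Ne.symm hW.1))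
      exact ih W (by omega)
    rw [h4] at h1
    exact add_right_cancel h1

/-- from the subgroups to the cosets -/
theorem aa_of_kU
    (h : ∀ U : Subgroup (E ⧸ G), radSum p G (fun S => (kU G S U : ℤ)) = (zU p G U : ℤ)) (e : E) :
    radSum p G (fun S => (aa G S e : ℤ)) = (zinv p G e : ℤ) := by
  have : Fintype (Subgroup (E ⧸ G)) := Fintype.ofFinite _
  have h2 : (fun S => (aa G S e : ℤ)) = fun S => ∑ W ∈ Finset.univ.filter
      (fun W : Subgroup (E ⧸ G) => (e : E ⧸ G) ∈ W), (kU G S W : ℤ) := by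
    funext S
    rw [aa_eq_sum]
    push_cast
    rfl
  have h3 : (zinv p G e : ℤ) = ∑ W ∈ Finset.univ.filter
      (fun W : Subgroup (E ⧸ G) => (e : E ⧸ G) ∈ W), (zU p G W : ℤ) := by
    rw [zinv_eq_sum]
    push_cast
    rfl
  rw [h2, radSum_sum, h3]
  exact Finset.sum_congr rfl fun W _ => h W

/-- the failure of the equality of Knörr and Robinson -/
def fl (p : ℕ) (H : Type) [Group H] : ℤ :=
  alternatingSum p H (fun K => (Nat.card (ConjClasses K) : ℤ)) - (numDefectZero p H : ℤ)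

/-- the weighted sum of failures in the coset of `e` -/
def wf (p : ℕ) (M : Subgroup E) (e : E) (a : ℕ) : ℤ :=
  letI : Fintype E := Fintype.ofFinite E
  ∑ u ∈ Finset.univ.filter (fun u : E => u * e⁻¹ ∈ M ∧ orderOf u = p ^ a),
    (Nat.card (CG M u) : ℤ) * fl p (CG M u)

theorem Dd_zero_iff {M : Subgroup E} [M.Normal] (hO : Op p M = ⊥) {e : E} {a : ℕ}
    (he : orderOf (e : E ⧸ M) = p ^ a) : Dd p M e = 0 ↔ wf p M e a = 0 := by
  let _ : Fintype E := Fintype.ofFinite E
  have h1 := diff_split (p := p) hO he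
  have h2 : (Nat.card M : ℤ) ≠ 0 := by exact_mod_cast Nat.card_pos.ne'
  have h3 : Dd p M e = ((radSum p M (fun S => (aa M S e : ℤ)) - (zinv p M e : ℤ) : ℤ) : ℂ) := by
    unfold Dd
    push_cast
    rfl
  rw [h3, Int.cast_eq_zero]
  unfold wf fl
  rw [← h1]
  constructor
  · intro h
    rw [h, mul_zero]
  · intro h
    rcases mul_eq_zero.mp h with h4 | h4
    · exact absurd h4 h2
    · exact h4

/-- **Main theorem.** -/
theorem main (hO : Op p G = ⊥) (hcyc : IsCyclic (E ⧸ G)) :
    (∀ U : Subgroup (E ⧸ G), radSum p G (fun S => (kU G S U : ℤ)) = (zU p G U : ℤ)) ↔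
    ∀ (M : Subgroup E) [M.Normal], G ≤ M → ¬ p ∣ G.relIndex M → ∀ (e : E) (a : ℕ),
      orderOf (e : E ⧸ M) = p ^ a → wf p M e a = 0 := by
  have hcomm : ∀ a b : E ⧸ G, a * b = b * a := fun a b => by
    obtain ⟨g, hg⟩ := hcyc.exists_generator
    obtain ⟨i, rfl⟩ := Subgroup.mem_zpowers_iff.mp (hg a)
    obtain ⟨j, rfl⟩ := Subgroup.mem_zpowers_iff.mp (hg b)
    rw [← zpow_add, ← zpow_add, add_comm]
  have hab : ∀ x y : E, x * y * x⁻¹ * y⁻¹ ∈ G := by
    intro x y
    rw [← QuotientGroup.eq_one_iff, QuotientGroup.mk_mul, QuotientGroup.mk_mul,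
      QuotientGroup.mk_mul, hcomm (x : E ⧸ G) (y : E ⧸ G), ← QuotientGroup.mk_mul,
      ← QuotientGroup.mk_mul, ← QuotientGroup.mk_mul]
    have : y * x * x⁻¹ * y⁻¹ = 1 := by group
    rw [this]
    rfl
  have hG0 : (Nat.card G : ℂ) ≠ 0 := by exact_mod_cast Nat.card_pos.ne'
  have step1 : (∀ U : Subgroup (E ⧸ G), radSum p G (fun S => (kU G S U : ℤ)) = (zU p G U : ℤ)) ↔
      ∀ g : E ⧸ G, NN p G 1 g = 0 := by
    constructor
    · intro h g
      obtain ⟨e, rfl⟩ := QuotientGroup.mk_surjective g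
      rw [← card_mul_Dd_G hO e]
      unfold Dd
      rw [aa_of_kU h e]
      push_cast
      rw [sub_self, mul_zero]
    · intro h U
      refine kU_of_aa hcyc (fun e => ?_) U
      have h1 := card_mul_Dd_G hO e
      rw [h] at h1
      rcases mul_eq_zero.mp h1 with h2 | h2
      · exact absurd h2 hG0
      · unfold Dd at h2
        have h3 := sub_eq_zero.mp h2
        exact_mod_cast h3
  rw [step1, ← nn_iff (p := p) (NN_sym G) hcyc]
  constructor
  · intro H M _ hGM hpM e a he
    rw [← Dd_zero_iff (op_bot hO hGM hpM) he]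
    have h1 := card_mul_Dd' hab hO hGM hpM e
    have h2 : ∀ g : E ⧸ G, NN p G 1 g = 0 := (nn_iff (p := p) (NN_sym G) hcyc).mp H
    have h3 : DS (NN p G) (M.map (QuotientGroup.mk' G)) (e : E ⧸ G) = 0 := by
      unfold DS
      refine Finset.sum_eq_zero fun q _ => ?_
      have h4 : IsCyclic (Subgroup.closure ({q.1, q.2} : Set (E ⧸ G))) := inferInstance
      obtain ⟨v, hv⟩ := h4.exists_generator
      have h5 : Subgroup.closure ({q.1, q.2} : Set (E ⧸ G)) = Subgroup.zpowers (v : E ⧸ G) := by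
        apply le_antisymm
        · intro x hx
          obtain ⟨k, hk⟩ := Subgroup.mem_zpowers_iff.mp (hv ⟨x, hx⟩)
          rw [Subgroup.mem_zpowers_iff]
          exact ⟨k, congrArg Subtype.val hk⟩
        · rw [Subgroup.zpowers_le]
          exact v.2
      rw [(NN_sym G).gen h5, h2]
    rw [h3] at h1
    rcases mul_eq_zero.mp h1 with h2 | h2
    · exact absurd h2 (by exact_mod_cast Nat.card_pos.ne')
    · exact h2
  · intro H D hpD e' he'
    obtain ⟨e, rfl⟩ := QuotientGroup.mk_surjective e'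
    obtain ⟨a, ha⟩ := he'
    set M : Subgroup E := D.comap (QuotientGroup.mk' G) with hM
    have hGM : G ≤ M := by
      intro x hx
      rw [hM, Subgroup.mem_comap]
      have : (QuotientGroup.mk' G) x = 1 := (QuotientGroup.eq_one_iff x).mpr hx
      rw [this]
      exact D.one_mem
    have hMn : M.Normal := normal_of_comm hab hGM
    have hmap : M.map (QuotientGroup.mk' G) = D :=
      Subgroup.map_comap_eq_self_of_surjective (QuotientGroup.mk'_surjective G) D
    have hrel : G.relIndex M = Nat.card D := by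
      have h1 : (⊥ : Subgroup (E ⧸ G)).comap (QuotientGroup.mk' G) = G := QuotientGroup.ker_mk' G
      have h2 := Subgroup.relIndex_comap (⊥ : Subgroup (E ⧸ G)) (QuotientGroup.mk' G) M
      rw [h1, hmap, Subgroup.relIndex_bot_left] at h2
      exact h2
    have hpM : ¬ p ∣ G.relIndex M := by rw [hrel]; exact hpD
    have ho : ∃ b : ℕ, orderOf (e : E ⧸ M) = p ^ b := by
      have h1 : (e : E ⧸ M) ^ p ^ a = 1 := by
        rw [← QuotientGroup.mk_pow, QuotientGroup.eq_one_iff]
        apply hGM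
        rw [← QuotientGroup.eq_one_iff, QuotientGroup.mk_pow]
        have := pow_orderOf_eq_one (e : E ⧸ G)
        rwa [ha] at this
      obtain ⟨b, -, hb⟩ := (Nat.dvd_prime_pow hp.out).mp (orderOf_dvd_of_pow_eq_one h1)
      exact ⟨b, hb⟩
    obtain ⟨b, hb⟩ := ho
    have h1 := (Dd_zero_iff (op_bot hO hGM hpM) hb).mpr (H M hGM hpM e b hb)
    have h2 := card_mul_Dd' hab hO hGM hpM e
    rw [h1, mul_zero, hmap] at h2
    exact h2.symm

end Pool.Agent.Q100.CQ
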