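import Mathlib

set_option autoImplicit false
set_option linter.unusedSectionVars false

/-!
# Functions of two commuting elements with the symmetries of the torus
-/

open scoped Classical BigOperators

noncomputable section

namespace Pool.Agent.Q100.CQ

variable {C : Type} [Group C]

/-- the two symmetries -/
structure Sym (N : C → C → ℂ) : Prop where
  mul : ∀ a b, N a (b * a) = N a b
  rot : ∀ a b, N b a⁻¹ = N a b

variable {N : C → C → ℂ}

lemma Sym.mul_zpow (h : Sym N) (a b : C) (k : ℤ) : N a (b * a ^ k) = N a b := by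
  induction k using Int.induction_on with
  | zero => rw [zpow_zero, mul_one]
  | succ k ih => rw [zpow_add_one, ← mul_assoc, h.mul, ih]
  | pred k ih =>
    rw [← h.mul a (b * a ^ (-(k : ℤ) - 1)), mul_assoc, ← zpow_add_one, sub_add_cancel]
    exact ih

lemma Sym.one_inv (h : Sym N) (b : C) : N 1 b⁻¹ = N 1 b := by
  have h1 := h.rot b 1
  have h2 := h.rot 1 b
  rw [inv_one] at h2
  rw [h1, h2]

theorem Sym.gcd (h : Sym N) (g : C) : ∀ (n : ℕ) (i j : ℤ), i.natAbs ≤ n →
    N (g ^ i) (g ^ j) = N 1 (g ^ (Int.gcd i j : ℤ)) := by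
  intro n
  induction n using Nat.strong_induction_on with
  | _ n ih =>
    intro i j hi
    by_cases h0 : i = 0
    · subst h0
      rw [zpow_zero, Int.gcd_zero_left]
      rcases le_total 0 j with hj | hj
      · rw [Int.natAbs_of_nonneg hj]
      · have : (j.natAbs : ℤ) = -j := by omega
        rw [this, zpow_neg, h.one_inv]
    · have h1 : g ^ j = g ^ (j % i) * (g ^ i) ^ (j / i) := by
        rw [← zpow_mul, ← zpow_add, Int.emod_add_mul_ediv]
      rw [h1, h.mul_zpow, ← h.rot (g ^ i) (g ^ (j % i)), ← zpow_neg]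
      have h2 : (j % i).natAbs < i.natAbs := by
        have h3 := Int.emod_nonneg j h0
        have h4 := Int.emod_lt_abs j h0
        rw [Int.abs_eq_natAbs] at h4
        omega
      rw [ih (j % i).natAbs (by omega) (j % i) (-i) le_rfl, Int.gcd_neg]
      congr 3
      rw [Int.gcd_comm, Int.emod_def, sub_eq_add_neg, ← mul_neg, Int.gcd_add_mul_left_right]

/-- the value depends only on the subgroup, if it is cyclic -/
theorem Sym.gen [Finite C] (h : Sym N) {a b g : C}
    (hg : Subgroup.closure ({a, b} : Set C) = Subgroup.zpowers g) : N a b = N 1 g := by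
  have ha : a ∈ Subgroup.zpowers g := by
    rw [← hg]; exact Subgroup.subset_closure (by simp)
  have hb : b ∈ Subgroup.zpowers g := by
    rw [← hg]; exact Subgroup.subset_closure (by simp)
  obtain ⟨i, rfl⟩ := Subgroup.mem_zpowers_iff.mp ha
  obtain ⟨j, rfl⟩ := Subgroup.mem_zpowers_iff.mp hb
  rw [h.gcd g _ i j le_rfl]
  set d : ℤ := (Int.gcd i j : ℤ) with hd
  set n : ℤ := (orderOf g : ℤ) with hn
  have h1 : g ^ n = 1 := by rw [hn, zpow_natCast, pow_orderOf_eq_one]
  have h2 := h.gcd g _ n d le_rfl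
  rw [h1] at h2
  rw [h2]
  congr 1
  -- `gcd n d = 1`
  have h3 : g ∈ Subgroup.closure ({g ^ i, g ^ j} : Set C) := by
    rw [hg]; exact Subgroup.mem_zpowers g
  have h4 : Subgroup.closure ({g ^ i, g ^ j} : Set C) ≤ Subgroup.zpowers (g ^ d) := by
    rw [Subgroup.closure_le]
    rintro x (rfl | hx)
    · obtain ⟨k, hk⟩ := Int.gcd_dvd_left i j
      refine Subgroup.mem_zpowers_iff.mpr ⟨k, ?_⟩
      rw [← zpow_mul]
      conv_rhs => rw [hk]
    · have hx' : x = g ^ j := hx
      subst hx'
      obtain ⟨k, hk⟩ := Int.gcd_dvd_right i j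
      refine Subgroup.mem_zpowers_iff.mpr ⟨k, ?_⟩
      rw [← zpow_mul]
      conv_rhs => rw [hk]
  obtain ⟨k, hk⟩ := Subgroup.mem_zpowers_iff.mp (h4 h3)
  rw [← zpow_mul] at hk
  have h5 : g ^ (d * k - 1) = 1 := by
    rw [zpow_sub, hk, zpow_one, mul_inv_cancel]
  have h6 : n ∣ d * k - 1 := orderOf_dvd_iff_zpow_eq_one.mpr h5
  have h7 : Int.gcd n d = 1 := by
    rw [← Int.isCoprime_iff_gcd_eq_one]
    obtain ⟨c, hc⟩ := h6
    exact ⟨-c, k, by linear_combination hc⟩
  rw [h7]
  simp

end Pool.Agent.Q100.CQ
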