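import Pool.Agent.Q100.CQ.Deg

set_option autoImplicit false
set_option linter.unusedSectionVars false

/-!
# The idempotent of the characters of defect zero
-/

open scoped Classical BigOperators
open Pool.Agent.Helper884.IC Pool.Agent.Y63.KR
open Pool.Agent.Y63.AWC hiding DZ
open Pool.Agent.Q100.IV

noncomputable section

namespace Pool.Agent.Q100.CQ

/-- the irreducible characters of defect zero -/
def dzf (p : ℕ) (H : Type) [Group H] [Fintype H] : Finset (H → ℂ) := (Irr H).filter (DZ p)

lemma mem_dzf {p : ℕ} {H : Type} [Group H] [Fintype H] {χ : H → ℂ} :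
    χ ∈ dzf p H ↔ IsIrrChar χ ∧ DZ p χ := by
  unfold dzf
  rw [Finset.mem_filter, mem_Irr]

lemma dzf_sub {p : ℕ} {H : Type} [Group H] [Fintype H] : dzf p H ⊆ Irr H := Finset.filter_subset _ _

section

variable {K M : Type} [Group K] [Group M] [Fintype K] [Fintype M]
variable {ι : K →* M} {α : M → K ≃* K} {p : ℕ} [hp : Fact p.Prime]

lemma dz_iff (h : CJ ι α) [ι.range.Normal] (hab : ∀ x y : M, x * y * x⁻¹ * y⁻¹ ∈ ι.range)
    (hpQ : ¬ p ∣ Nat.card (M ⧸ ι.range))
    {χ : M → ℂ} (hχ : IsIrrChar χ) {θ : K → ℂ} (hθ : IsIrrChar θ) (hm : mlt ι θ χ ≠ 0) :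
    DZ p χ ↔ DZ p θ := by
  obtain ⟨s, t, hs, ht, hd⟩ := degree h hab hχ hθ hm
  obtain ⟨n, hn, hn1⟩ := deg_nat hχ
  obtain ⟨k, hk, hk1⟩ := deg_nat hθ
  have hps : ¬ p ∣ s := fun h1 => hpQ (h1.trans hs)
  have hpt : ¬ p ∣ t := fun h1 => hpQ (h1.trans ht)
  rw [hn1, hk1] at hd
  have hd' : n ^ 2 = t * s * k ^ 2 := by exact_mod_cast hd
  have hs0 : s ≠ 0 := by rintro rfl; exact hps (dvd_zero _)
  have ht0 : t ≠ 0 := by rintro rfl; exact hpt (dvd_zero _)
  have hf : n.factorization p = k.factorization p := by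
    have h1 : (n ^ 2).factorization p = (t * s * k ^ 2).factorization p := by rw [hd']
    rw [Nat.factorization_pow, Nat.factorization_mul (mul_ne_zero ht0 hs0) (pow_ne_zero _ hk.ne'),
      Nat.factorization_mul ht0 hs0, Nat.factorization_pow] at h1
    simp only [Finsupp.coe_add, Pi.add_apply, Finsupp.smul_apply, smul_eq_mul] at h1
    rw [Nat.factorization_eq_zero_of_not_dvd hps, Nat.factorization_eq_zero_of_not_dvd hpt] at h1
    omega
  have hc : (Nat.card M).factorization p = (Nat.card K).factorization p := by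
    have h1 := Subgroup.card_eq_card_quotient_mul_card_subgroup ι.range
    have h2 : Nat.card ι.range = Nat.card K :=
      (Nat.card_congr (MonoidHom.ofInjective h.inj).toEquiv).symm
    rw [h2] at h1
    rw [h1, Nat.factorization_mul Nat.card_pos.ne' Nat.card_pos.ne', Finsupp.coe_add, Pi.add_apply,
      Nat.factorization_eq_zero_of_not_dvd hpQ, zero_add]
  constructor
  · rintro ⟨n', h1, h2⟩
    rw [hn1] at h1
    have h3 : n = n' := by exact_mod_cast h1
    exact ⟨k, hk1, by rw [← hf, h3, h2, hc]⟩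
  · rintro ⟨k', h1, h2⟩
    rw [hk1] at h1
    have h3 : k = k' := by exact_mod_cast h1
    exact ⟨n, hn1, by rw [hf, h3, h2, hc]⟩

lemma dzf_stab : Stab α (dzf p K) := by
  intro y θ hθ
  rw [mem_dzf] at hθ ⊢
  obtain ⟨h1, n, h2, h3⟩ := hθ
  exact ⟨irr_comp (α y) h1, n, by simpa using h2, h3⟩

/-- **The idempotents agree.** -/
theorem FT_eq (h : CJ ι α) [ι.range.Normal] (hab : ∀ x y : M, x * y * x⁻¹ * y⁻¹ ∈ ι.range)
    (hpQ : ¬ p ∣ Nat.card (M ⧸ ι.range)) (z : M) :
    (Nat.card M : ℂ) * push ι (FT (dzf p K)) z = (Nat.card K : ℂ) * FT (dzf p M) z := by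
  have hM := cardG_ne (G := M)
  have hK := cardG_ne (G := K)
  have key : (Nat.card M : ℂ) • push ι (FT (dzf p K)) - (Nat.card K : ℂ) • FT (dzf p M) = 0 := by
    refine class_eq_zero _ ?_ ?_
    · intro x y
      have h1 := push_class h (dzf_stab (α := α) (p := p) (K := K)) x y
      have h2 := FT_class (dzf_sub (p := p) (H := M)) x y
      simp only [Pi.sub_apply, Pi.smul_apply]
      rw [h1, h2]
    · intro χ hχ
      rw [B_sub_left, B_smul_left, B_smul_left]
      have h1 : B (push ι (FT (dzf p K))) χ = (Nat.card M : ℂ)⁻¹ *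
          ((Nat.card K : ℂ) * SS' ι (dzf p K) χ) := by
        unfold B
        rw [SS_eq]
      have h2 : B (FT (dzf p M)) χ = if DZ p χ then χ 1 else 0 := by
        have e1 : FT (dzf p M) = ∑ ψ ∈ dzf p M, ψ 1 • ψ := by
          funext x
          unfold FT
          rw [Finset.sum_apply]
          rfl
        rw [e1, B_sum_left]
        have e2 : ∀ ψ ∈ dzf p M, B (ψ 1 • ψ) χ = if ψ = χ then χ 1 else 0 := by
          intro ψ hψ
          rw [B_smul_left, B_irr (mem_dzf.mp hψ).1 hχ]
          by_cases h3 : ψ = χ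
          · rw [if_pos h3, if_pos h3, h3, mul_one]
          · rw [if_neg h3, if_neg h3, mul_zero]
        rw [Finset.sum_congr rfl e2, Finset.sum_ite_eq' (dzf p M) χ]
        by_cases h3 : DZ p χ
        · rw [if_pos h3, if_pos (mem_dzf.mpr ⟨hχ, h3⟩)]
        · rw [if_neg h3, if_neg (fun h4 => h3 (mem_dzf.mp h4).2)]
      have h3 : SS' ι (dzf p K) χ = if DZ p χ then χ 1 else 0 := by
        by_cases h4 : DZ p χ
        · rw [if_pos h4, ← SS_all χ (res_class h hχ.isClass)]
          unfold SS'
          refine Finset.sum_subset dzf_sub fun θ hθ hn => ?_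
          have : mlt ι θ χ = 0 := by
            by_contra h5
            have hθ' := mem_Irr.mp hθ
            exact hn (mem_dzf.mpr ⟨hθ', (dz_iff h hab hpQ hχ hθ' h5).mp h4⟩)
          rw [this, mul_zero]
        · rw [if_neg h4]
          unfold SS'
          refine Finset.sum_eq_zero fun θ hθ => ?_
          have hθ' := mem_dzf.mp hθ
          have : mlt ι θ χ = 0 := by
            by_contra h5
            exact h4 ((dz_iff h hab hpQ hχ hθ'.1 h5).mpr hθ'.2)
          rw [this, mul_zero]
      rw [h1, h2, h3]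
      field_simp
      ring
  have := congrFun key z
  simp only [Pi.sub_apply, Pi.smul_apply, smul_eq_mul, Pi.zero_apply] at this
  exact sub_eq_zero.mp this

end

section

variable {E : Type} [Group E] [Finite E] {p : ℕ} [hp : Fact p.Prime]

/-- the function `Φ_N` on `E` -/
def Phi (p : ℕ) (N : Subgroup E) (z : E) : ℂ :=
  letI : Fintype N := Fintype.ofFinite N
  push N.subtype (FT (dzf p N)) z / Nat.card N

/-- conjugation on a normal subgroup -/
def cjN (N : Subgroup E) [hN : N.Normal] (y : E) : N ≃* N where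
  toFun x := ⟨y * x * y⁻¹, hN.conj_mem x x.2 y⟩
  invFun x := ⟨y⁻¹ * x * y, by
    have := hN.conj_mem x x.2 y⁻¹
    rwa [inv_inv] at this⟩
  left_inv x := Subtype.ext (by simp [mul_assoc])
  right_inv x := Subtype.ext (by simp [mul_assoc])
  map_mul' x y' := Subtype.ext (by simp [mul_assoc])

lemma cj_sub (N : Subgroup E) [N.Normal] : CJ N.subtype (cjN N) where
  inj := Subtype.val_injective
  cj _ _ := rfl

lemma phi_class (N : Subgroup E) [N.Normal] (y z : E) :
    Phi p N (y * z * y⁻¹) = Phi p N z := by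
  let _ : Fintype E := Fintype.ofFinite E
  let _ : Fintype N := Fintype.ofFinite N
  have h1 := push_class (cj_sub N) (dzf_stab (α := cjN N) (p := p) (K := N)) z y
  unfold Phi
  exact congrArg (fun t : ℂ => t / Nat.card N) h1

lemma phi_mem (N : Subgroup E) [Fintype N] {z : E} (hz : z ∈ N) :
    Phi p N z = FT (dzf p N) (⟨z, hz⟩ : N) / Nat.card N := by
  obtain rfl : ‹Fintype N› = Fintype.ofFinite N := Subsingleton.elim _ _
  let _ : Fintype N := Fintype.ofFinite N
  unfold Phi
  congr 1
  exact push_apply (ι := N.subtype) Subtype.val_injective (FT (dzf p N)) ⟨z, hz⟩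

lemma phi_not_mem (N : Subgroup E) {z : E} (hz : z ∉ N) : Phi p N z = 0 := by
  let _ : Fintype N := Fintype.ofFinite N
  have h1 : push N.subtype (FT (dzf p N)) z = 0 := by
    apply push_zero
    rintro ⟨x, rfl⟩
    exact hz x.2
  unfold Phi
  rw [h1, zero_div]

/-- **The functions of `G` and `M` agree**, if `M / G` is abelian of order prime to `p`. -/
theorem phi_eq {G M : Subgroup E} [hG : G.Normal] (hGM : G ≤ M)
    (hab : ∀ x ∈ M, ∀ y ∈ M, x * y * x⁻¹ * y⁻¹ ∈ G) (hpM : ¬ p ∣ G.relIndex M) :
    Phi p G = Phi p M := by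
  have : Fintype G := Fintype.ofFinite G
  have : Fintype M := Fintype.ofFinite M
  funext z
  by_cases hz : z ∈ M
  · let ι : G →* M := Subgroup.inclusion hGM
    let α : M → (G ≃* G) := fun y => cjN G (y : E)
    have hr : ι.range = G.subgroupOf M := by
      ext x
      constructor
      · rintro ⟨w, rfl⟩
        exact w.2
      · intro hx
        exact ⟨⟨x, hx⟩, rfl⟩
    have hn : ι.range.Normal := by
      rw [hr]
      infer_instance
    have hcj : CJ ι α :=
      { inj := Subgroup.inclusion_injective hGM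
        cj := fun y x => rfl }
    have hab' : ∀ x y : M, x * y * x⁻¹ * y⁻¹ ∈ ι.range := by
      intro x y
      rw [hr]
      exact hab x x.2 y y.2
    have hidx : ¬ p ∣ Nat.card (M ⧸ ι.range) := by
      have : Nat.card (M ⧸ ι.range) = G.relIndex M := by
        rw [hr]
        rfl
      rw [this]
      exact hpM
    have h1 := FT_eq (p := p) hcj hab' hidx ⟨z, hz⟩
    have hGc := cardG_ne (G := G)
    have hMc := cardG_ne (G := M)
    rw [phi_mem M hz]
    by_cases hzG : z ∈ G
    · rw [phi_mem G hzG]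
      have h2 := push_apply hcj.inj (FT (dzf p G)) ⟨z, hzG⟩
      have h3 : ι ⟨z, hzG⟩ = ⟨z, hz⟩ := rfl
      rw [h3] at h2
      rw [h2] at h1
      field_simp
      linear_combination h1
    · rw [phi_not_mem G hzG]
      have h2 : push ι (FT (dzf p G)) (⟨z, hz⟩ : M) = 0 := by
        apply push_zero
        rw [hr]
        exact hzG
      rw [h2, mul_zero] at h1
      rcases mul_eq_zero.mp h1.symm with h3 | h3
      · exact absurd h3 hGc
      · rw [h3, zero_div]
  · rw [phi_not_mem M hz, phi_not_mem G (fun h => hz (hGM h))]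

end

end Pool.Agent.Q100.CQ
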