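import Pool.Agent.Q100.CQ.Zin
import Pool.Agent.Q100.CQ.Nf

set_option autoImplicit false
set_option linter.unusedSectionVars false

/-!
# The weight function
-/

open scoped Classical BigOperators
open Pool.Agent.Helper884.IC Pool.Agent.Y63.KR
open Pool.Agent.Y63.AWC hiding DZ
open Pool.Agent.Q100.IV

noncomputable section

namespace Pool.Agent.Q100.CQ

variable {E : Type} [Group E] [Finite E] {p : ℕ} [hp : Fact p.Prime]

/-- the weight of a pair -/
def Psi (p : ℕ) (N : Subgroup E) (x y : E) : ℂ :=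
  (if y * x = x * y then (alt (· ≤ ·) (SS p ({x, y} : Set E) N ⊥) : ℂ) else 0) -
    Phi p N (x * y * x⁻¹ * y⁻¹)

/-- the failure of the invariant conjecture for `e` -/
def Dd (p : ℕ) (N : Subgroup E) [N.Normal] (e : E) : ℂ :=
  ((radSum p N (fun S => (aa N S e : ℤ)) : ℤ) : ℂ) - (zinv p N e : ℂ)

theorem card_mul_Dd [Fintype E] {N : Subgroup E} [N.Normal] (hO : Op p N = ⊥) (e : E) :
    (Nat.card N : ℂ) * Dd p N e =
      ∑ q ∈ Finset.univ.filter (fun q : E × E => q.1 ∈ N ∧ q.2 * e⁻¹ ∈ N), Psi p N q.1 q.2 := by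
  unfold Dd Psi
  rw [mul_sub, Finset.sum_sub_distrib, sum_phi]
  congr 1
  have h1 := congrArg (Int.cast : ℤ → ℂ) (radSum_aa (p := p) hO e)
  push_cast at h1
  rw [h1, ← Finset.sum_filter, Finset.filter_filter]
  refine Finset.sum_congr ?_ fun _ _ => rfl
  ext q
  simp only [Finset.mem_filter, Finset.mem_univ, true_and]
  tauto

/-- the subgroups normalised by `x` and `y` -/
lemma SS_mul (N : Subgroup E) (x y : E) :
    SS p ({x, y * x} : Set E) N ⊥ = SS p ({x, y} : Set E) N ⊥ := by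
  ext Q
  rw [mem_SS, mem_SS]
  have key : (∀ z ∈ ({x, y * x} : Set E), conjSub z Q = Q) ↔
      ∀ z ∈ ({x, y} : Set E), conjSub z Q = Q := by
    constructor
    · intro h
      have hx := h x (by simp)
      have hy := h (y * x) (by simp)
      rw [conjSub_mul, hx] at hy
      rintro z (rfl | hz)
      · exact hx
      · have hz' : z = y := hz
        rw [hz']
        exact hy
    · intro h
      have hx := h x (by simp)
      have hy := h y (by simp)
      rintro z (rfl | hz)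
      · exact hx
      · have hz' : z = y * x := hz
        rw [hz', conjSub_mul, hx, hy]
  rw [key]

lemma SS_rot (N : Subgroup E) (x y : E) :
    SS p ({y, x⁻¹} : Set E) N ⊥ = SS p ({x, y} : Set E) N ⊥ := by
  ext Q
  rw [mem_SS, mem_SS]
  have hinv : ∀ z : E, conjSub z Q = Q → conjSub z⁻¹ Q = Q := by
    intro z hz
    conv_lhs => rw [← hz]
    rw [← conjSub_mul, inv_mul_cancel, conjSub_one]
  have key : (∀ z ∈ ({y, x⁻¹} : Set E), conjSub z Q = Q) ↔
      ∀ z ∈ ({x, y} : Set E), conjSub z Q = Q := by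
    constructor
    · intro h
      have hx := h x⁻¹ (by simp)
      have hy := h y (by simp)
      rintro z (rfl | hz)
      · have := hinv _ hx
        rwa [inv_inv] at this
      · have hz' : z = y := hz
        rw [hz']
        exact hy
    · intro h
      have hx := h x (by simp)
      have hy := h y (by simp)
      rintro z (rfl | hz)
      · exact hy
      · have hz' : z = x⁻¹ := hz
        rw [hz']
        exact hinv _ hx
  rw [key]

lemma psi_mul (N : Subgroup E) (x y : E) : Psi p N x (y * x) = Psi p N x y := by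
  unfold Psi
  rw [SS_mul]
  have h1 : x * (y * x) * x⁻¹ * (y * x)⁻¹ = x * y * x⁻¹ * y⁻¹ := by group
  rw [h1]
  congr 1
  have h2 : (y * x * x = x * (y * x)) ↔ y * x = x * y := by
    rw [← mul_assoc x y x]
    exact mul_left_inj x
  by_cases h3 : y * x = x * y
  · rw [if_pos h3, if_pos (h2.mpr h3)]
  · rw [if_neg h3, if_neg (fun h4 => h3 (h2.mp h4))]

lemma psi_rot (N : Subgroup E) [N.Normal] (x y : E) : Psi p N y x⁻¹ = Psi p N x y := by
  unfold Psi
  rw [SS_rot]
  have h1 : x * y * x⁻¹ * y⁻¹ = x * (y * x⁻¹ * y⁻¹ * x⁻¹⁻¹) * x⁻¹ := by group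
  rw [h1, phi_class]
  congr 1
  have h2 : (x⁻¹ * y = y * x⁻¹) ↔ y * x = x * y := by
    constructor
    · intro h
      calc y * x = x * (x⁻¹ * y) * x := by group
        _ = x * (y * x⁻¹) * x := by rw [h]
        _ = x * y := by group
    · intro h
      calc x⁻¹ * y = x⁻¹ * (y * x) * x⁻¹ := by group
        _ = x⁻¹ * (x * y) * x⁻¹ := by rw [h]
        _ = y * x⁻¹ := by group
  by_cases h3 : y * x = x * y
  · rw [if_pos h3, if_pos (h2.mpr h3)]
  · rw [if_neg h3, if_neg (fun h4 => h3 (h2.mp h4))]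

/-- the sum over two cosets -/
def NN (p : ℕ) (G : Subgroup E) [G.Normal] (a b : E ⧸ G) : ℂ :=
  letI : Fintype E := Fintype.ofFinite E
  ∑ q ∈ Finset.univ.filter (fun q : E × E => (q.1 : E ⧸ G) = a ∧ (q.2 : E ⧸ G) = b), Psi p G q.1 q.2

theorem NN_sym (G : Subgroup E) [G.Normal] : Sym (NN p G) where
  mul a b := by
    let _ : Fintype E := Fintype.ofFinite E
    unfold NN
    refine Finset.sum_bij' (fun q _ => (q.1, q.2 * q.1⁻¹)) (fun q _ => (q.1, q.2 * q.1)) ?_ ?_ ?_ ?_ ?_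
    · intro q hq
      rw [Finset.mem_filter] at hq ⊢
      refine ⟨Finset.mem_univ _, hq.2.1, ?_⟩
      change ((q.2 * q.1⁻¹ : E) : E ⧸ G) = b
      rw [QuotientGroup.mk_mul, QuotientGroup.mk_inv, hq.2.1, hq.2.2, mul_inv_cancel_right]
    · intro q hq
      rw [Finset.mem_filter] at hq ⊢
      refine ⟨Finset.mem_univ _, hq.2.1, ?_⟩
      change ((q.2 * q.1 : E) : E ⧸ G) = b * a
      rw [QuotientGroup.mk_mul, hq.2.1, hq.2.2]
    · intro q _
      simp
    · intro q _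
      simp
    · intro q _
      change Psi p G q.1 q.2 = Psi p G q.1 (q.2 * q.1⁻¹)
      rw [← psi_mul G q.1 (q.2 * q.1⁻¹), inv_mul_cancel_right]
  rot a b := by
    let _ : Fintype E := Fintype.ofFinite E
    unfold NN
    refine Finset.sum_bij' (fun q _ => (q.2⁻¹, q.1)) (fun q _ => (q.2, q.1⁻¹)) ?_ ?_ ?_ ?_ ?_
    · intro q hq
      rw [Finset.mem_filter] at hq ⊢
      refine ⟨Finset.mem_univ _, ?_, hq.2.1⟩
      change ((q.2⁻¹ : E) : E ⧸ G) = a
      rw [QuotientGroup.mk_inv, hq.2.2, inv_inv]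
    · intro q hq
      rw [Finset.mem_filter] at hq ⊢
      refine ⟨Finset.mem_univ _, hq.2.2, ?_⟩
      change ((q.1⁻¹ : E) : E ⧸ G) = a⁻¹
      rw [QuotientGroup.mk_inv, hq.2.1]
    · intro q _
      simp
    · intro q _
      simp
    · intro q _
      change Psi p G q.1 q.2 = Psi p G q.2⁻¹ q.1
      rw [← psi_rot G q.2⁻¹ q.1, inv_inv]

lemma mem_of_ppow {G M : Subgroup E} [hG : G.Normal] (hpM : ¬ p ∣ G.relIndex M) {Q : Subgroup E}
    (hQ : IsPGroup p Q) (hQM : Q ≤ M) : Q ≤ G := by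
  intro x hx
  obtain ⟨k, hk⟩ := hQ ⟨x, hx⟩
  have hk' : x ^ p ^ k = 1 := congrArg Subtype.val hk
  have h1 : (((⟨x, hQM hx⟩ : M) : M ⧸ G.subgroupOf M)) ^ p ^ k = 1 := by
    rw [← QuotientGroup.mk_pow, QuotientGroup.eq_one_iff]
    rw [Subgroup.mem_subgroupOf]
    change x ^ p ^ k ∈ G
    rw [hk']
    exact G.one_mem
  have h2 : (((⟨x, hQM hx⟩ : M) : M ⧸ G.subgroupOf M)) ^ Nat.card (M ⧸ G.subgroupOf M) = 1 :=
    pow_card_eq_one'
  have h3 : orderOf ((⟨x, hQM hx⟩ : M) : M ⧸ G.subgroupOf M) ∣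
      Nat.gcd (p ^ k) (Nat.card (M ⧸ G.subgroupOf M)) :=
    Nat.dvd_gcd (orderOf_dvd_of_pow_eq_one h1) (orderOf_dvd_of_pow_eq_one h2)
  have h4 : Nat.gcd (p ^ k) (Nat.card (M ⧸ G.subgroupOf M)) = 1 :=
    ((Nat.Prime.coprime_iff_not_dvd hp.out).mpr hpM).pow_left k
  rw [h4, Nat.dvd_one, orderOf_eq_one_iff, QuotientGroup.eq_one_iff, Subgroup.mem_subgroupOf] at h3
  exact h3

lemma psi_eq {G M : Subgroup E} [hG : G.Normal] (hGM : G ≤ M)
    (hab : ∀ x ∈ M, ∀ y ∈ M, x * y * x⁻¹ * y⁻¹ ∈ G) (hpM : ¬ p ∣ G.relIndex M) (x y : E) :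
    Psi p M x y = Psi p G x y := by
  unfold Psi
  rw [phi_eq hGM hab hpM]
  congr 3
  have : SS p ({x, y} : Set E) M ⊥ = SS p ({x, y} : Set E) G ⊥ := by
    ext Q
    rw [mem_SS, mem_SS]
    constructor
    · rintro ⟨h1, h2, h3, h4⟩
      exact ⟨h1, h2, mem_of_ppow hpM h1 h3, h4⟩
    · rintro ⟨h1, h2, h3, h4⟩
      exact ⟨h1, h2, h3.trans hGM, h4⟩
  rw [this]

end Pool.Agent.Q100.CQ
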