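import Pool.Agent.Q100.CQ.Phi

set_option autoImplicit false
set_option linter.unusedSectionVars false

/-!
# Invariant characters of defect zero and pairs
-/

open scoped Classical BigOperators
open Pool.Agent.Helper884.IC Pool.Agent.Y63.KR
open Pool.Agent.Y63.AWC hiding DZ
open Pool.Agent.Q100.IV

noncomputable section

namespace Pool.Agent.Q100.CQ

variable {E : Type} [Group E] [Finite E] {p : ℕ}

/-- the isomorphism of the two versions of `N` -/
def isoT (N : Subgroup E) : (N ⊓ ⊤ : Subgroup E) ≃* N where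
  toFun x := ⟨x, x.2.1⟩
  invFun x := ⟨x, x.2, Subgroup.mem_top _⟩
  left_inv _ := rfl
  right_inv _ := rfl
  map_mul' _ _ := rfl

lemma stab_iff {N : Subgroup E} [N.Normal] {ψ : (N ⊓ ⊤ : Subgroup E) → ℂ} (hψ : IsIrrChar ψ) (e : E) :
    (e : E ⧸ N) ∈ (inert N ⊤ ψ).map (QuotientGroup.mk' N) ↔ Fx (N ⊓ ⊤) ψ e := by
  have : Fintype (N ⊓ ⊤ : Subgroup E) := Fintype.ofFinite _
  rw [Subgroup.mem_map]
  constructor
  · rintro ⟨y, ⟨-, hf⟩, hye⟩
    have h1 : e * y⁻¹ ∈ N := coset_iff.mpr hye.symm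
    have h2 : e = e * y⁻¹ * y := by group
    rw [h2]
    exact fx_mul (Subgroup.mem_top _) (fx_inner hψ.isClass ⟨h1, Subgroup.mem_top _⟩) hf
  · intro h
    exact ⟨e, ⟨Subgroup.mem_top _, h⟩, rfl⟩

lemma zinv_card (N : Subgroup E) [N.Normal] [Fintype N] (e : E) :
    zinv p N e = ((dzf p N).filter (fun θ => ∀ x, θ (cjN N e x) = θ x)).card := by
  unfold zinv
  have e1 : {ψ : (N ⊓ ⊤ : Subgroup E) → ℂ // IsIrrChar ψ ∧ DZ p ψ ∧
      (e : E ⧸ N) ∈ (inert N ⊤ ψ).map (QuotientGroup.mk' N)} ≃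
      {θ // θ ∈ (dzf p N).filter (fun θ => ∀ x, θ (cjN N e x) = θ x)} := by
    have hc : Nat.card N = Nat.card (N ⊓ ⊤ : Subgroup E) := (Nat.card_congr (isoT N).toEquiv).symm
    refine
      { toFun := fun ψ => ⟨fun x => ψ.1 ((isoT N).symm x), ?_⟩
        invFun := fun θ => ⟨fun x => θ.1 (isoT N x), ?_, ?_, ?_⟩
        left_inv := fun ψ => Subtype.ext (funext fun x => by simp)
        right_inv := fun θ => Subtype.ext (funext fun x => by simp) }
    · obtain ⟨h1, ⟨n, h2, h3⟩, h4⟩ := ψ.2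
      rw [Finset.mem_filter, mem_dzf]
      refine ⟨⟨irr_comp (isoT N).symm h1, n, ?_, ?_⟩, ?_⟩
      · change ψ.1 ((isoT N).symm 1) = _
        rw [map_one, h2]
      · rw [h3, hc]
      · intro x
        have h5 := (stab_iff h1 e).mp h4
        exact h5 ((isoT N).symm x) _ rfl
    · exact irr_comp (isoT N) (mem_dzf.mp (Finset.mem_filter.mp θ.2).1).1
    · obtain ⟨n, h2, h3⟩ := (mem_dzf.mp (Finset.mem_filter.mp θ.2).1).2
      exact ⟨n, by
        change θ.1 (isoT N 1) = _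
        rw [map_one, h2], by rw [h3, hc]⟩
    · refine (stab_iff (irr_comp (isoT N) (mem_dzf.mp (Finset.mem_filter.mp θ.2).1).1) e).mpr ?_
      intro h h' hh
      have h5 := (Finset.mem_filter.mp θ.2).2 (isoT N h)
      have h6 : isoT N h' = cjN N e (isoT N h) := Subtype.ext hh
      change θ.1 (isoT N h') = θ.1 (isoT N h)
      rw [h6, h5]
  rw [Nat.card_congr e1, Nat.card_eq_fintype_card, Fintype.card_coe]

/-- **The number of invariant characters of defect zero in terms of pairs.** -/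
theorem sum_phi [hp : Fact p.Prime] [Fintype E] (N : Subgroup E) [N.Normal] (e : E) :
    ∑ q ∈ Finset.univ.filter (fun q : E × E => q.1 ∈ N ∧ q.2 * e⁻¹ ∈ N),
      Phi p N (q.1 * q.2 * q.1⁻¹ * q.2⁻¹) = (Nat.card N : ℂ) * (zinv p N e : ℂ) := by
  have : Fintype N := Fintype.ofFinite N
  have hN := cardG_ne (G := N)
  have h1 : ∑ q ∈ Finset.univ.filter (fun q : E × E => q.1 ∈ N ∧ q.2 * e⁻¹ ∈ N),
      Phi p N (q.1 * q.2 * q.1⁻¹ * q.2⁻¹) =
      ∑ t : N × N, FT (dzf p N) (t.1 * (t.2 * (cjN N e t.1)⁻¹ * t.2⁻¹)) / Nat.card N := by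
    symm
    refine Finset.sum_bij (fun t _ => ((t.1 : E), (t.2 : E) * e)) ?_ ?_ ?_ ?_
    · intro t _
      rw [Finset.mem_filter]
      refine ⟨Finset.mem_univ _, t.1.2, ?_⟩
      change (t.2 : E) * e * e⁻¹ ∈ N
      rw [mul_inv_cancel_right]
      exact t.2.2
    · rintro ⟨a, b⟩ _ ⟨a', b'⟩ _ h
      have h2 : (a : E) = a' := congrArg Prod.fst h
      have h3 : (b : E) * e = b' * e := congrArg Prod.snd h
      rw [Subtype.ext h2, Subtype.ext (mul_right_cancel h3)]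
    · rintro ⟨x, y⟩ hq
      rw [Finset.mem_filter] at hq
      refine ⟨(⟨x, hq.2.1⟩, ⟨y * e⁻¹, hq.2.2⟩), Finset.mem_univ _, ?_⟩
      change (x, y * e⁻¹ * e) = (x, y)
      rw [inv_mul_cancel_right]
    · rintro ⟨x, g⟩ _
      have h2 : (x : E) * ((g : E) * e) * (x : E)⁻¹ * ((g : E) * e)⁻¹ =
          ((x * (g * (cjN N e x)⁻¹ * g⁻¹) : N) : E) := by
        change _ = (x : E) * ((g : E) * (e * x * e⁻¹)⁻¹ * (g : E)⁻¹)
        group
      change _ = Phi p N ((x : E) * ((g : E) * e) * (x : E)⁻¹ * ((g : E) * e)⁻¹)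
      rw [h2, phi_mem N (x * (g * (cjN N e x)⁻¹ * g⁻¹)).2]
  rw [h1, Fintype.sum_prod_type]
  unfold FT
  have h2 : ∀ x : N, ∑ g : N, (∑ θ ∈ dzf p N, θ 1 * θ (x * (g * (cjN N e x)⁻¹ * g⁻¹))) / Nat.card N =
      ∑ θ ∈ dzf p N, θ x * θ (cjN N e x)⁻¹ := by
    intro x
    rw [← Finset.sum_div, Finset.sum_comm, Finset.sum_div]
    refine Finset.sum_congr rfl fun θ hθ => ?_
    have h3 := mul_formula (mem_dzf.mp hθ).1 x (cjN N e x)⁻¹
    rw [← Finset.mul_sum, mul_comm, h3]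
    field_simp
  rw [Finset.sum_congr rfl fun x _ => h2 x, Finset.sum_comm]
  have h3 : ∀ θ ∈ dzf p N, ∑ x : N, θ x * θ (cjN N e x)⁻¹ =
      if (∀ x, θ (cjN N e x) = θ x) then (Nat.card N : ℂ) else 0 := by
    intro θ hθ
    have hθ' := (mem_dzf.mp hθ).1
    have h4 := B_irr hθ' (irr_comp (cjN N e) hθ')
    unfold B at h4
    have h5 : ∑ x : N, θ x * θ (cjN N e x)⁻¹ =
        (Nat.card N : ℂ) * ((Nat.card N : ℂ)⁻¹ * ∑ g : N, θ g * θ (cjN N e g⁻¹)) := by
      rw [← mul_assoc, mul_inv_cancel₀ hN, one_mul]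
      refine Finset.sum_congr rfl fun x _ => ?_
      rw [map_inv]
    rw [h5, h4]
    by_cases h6 : ∀ x, θ (cjN N e x) = θ x
    · rw [if_pos h6, if_pos (funext fun x => (h6 x).symm), mul_one]
    · rw [if_neg h6, if_neg (fun h7 => h6 fun x => (congrFun h7 x).symm), mul_zero]
  rw [Finset.sum_congr rfl h3, ← Finset.sum_filter, Finset.sum_const, nsmul_eq_mul, ← zinv_card]
  ring

end Pool.Agent.Q100.CQ
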